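import Pool.Agent.P.MP_e76ef6_pr.Sharp

/-!
List systems with conflict maps: removal of a planted degenerate graph, relabelling.
-/

namespace Pool.Agent.P.MP_e76ef6_pr

open Finset Filter Topology

variable {n : ℕ} {β : Type} [DecidableEq β]

/-- some conflict map of the class `𝒦` and some lists (of size `k`, or `k - 1` on `U`) admit no
colouring -/
def Bad (k : ℕ) (𝒦 : Set (Fin n → Fin n → β → β)) (U : Finset (Fin n))
    (x : Finset (Sym2 (Fin n))) : Prop :=
  ∃ τ ∈ 𝒦, ∃ L : Fin n → Finset β, (∀ v, (if v ∈ U then k - 1 else k) ≤ (L v).card) ∧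
    ¬ ∃ φ : Fin n → β, (∀ v, φ v ∈ L v) ∧ ∀ u v, u ≠ v → s(u, v) ∈ x → φ v ≠ τ u v (φ u)

lemma greedy [Inhabited β] {τ : Fin n → Fin n → β → β}
    (hτ : ∀ u v a b, u ≠ v → b = τ u v a → a = τ v u b) (L : Fin n → Finset β)
    (S : Finset (Sym2 (Fin n))) (W : Finset (Fin n)) :
    (∀ H ⊆ W, H.Nonempty → ∃ v ∈ H, (H.filter (fun u => u ≠ v ∧ s(u, v) ∈ S)).card < (L v).card) →
    ∃ φ : Fin n → β, (∀ v ∈ W, φ v ∈ L v) ∧
      ∀ u ∈ W, ∀ v ∈ W, u ≠ v → s(u, v) ∈ S → φ v ≠ τ u v (φ u) := by
  induction W using Finset.strongInduction with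
  | H W ih =>
    intro h
    rcases W.eq_empty_or_nonempty with rfl | hne
    · exact ⟨default, by simp, by simp⟩
    obtain ⟨w, hw, hc⟩ := h W Subset.rfl hne
    obtain ⟨φ, h1, h2⟩ := ih (W.erase w) (erase_ssubset hw)
      fun H hH => h H (hH.trans (erase_subset _ _))
    obtain ⟨a, ha, ha'⟩ := exists_mem_notMem_of_card_lt_card (card_image_le
      (f := fun u => τ u w (φ u)).trans_lt hc)
    have key : ∀ u ∈ W, u ≠ w → s(u, w) ∈ S → a ≠ τ u w (φ u) := fun u hu huw hs e =>
      ha' (mem_image.2 ⟨u, mem_filter.2 ⟨hu, huw, hs⟩, e.symm⟩)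
    refine ⟨Function.update φ w a, fun v hv => ?_, fun u hu v hv huv hs => ?_⟩
    · by_cases e : v = w
      · rw [e, Function.update_self]; exact ha
      · rw [Function.update_of_ne e]; exact h1 v (mem_erase.2 ⟨e, hv⟩)
    · by_cases e : v = w
      · subst e
        rw [Function.update_self, Function.update_of_ne huv]
        exact key u hu huv hs
      · by_cases e' : u = w
        · subst e'
          rw [Function.update_self, Function.update_of_ne e]
          exact fun hh => key v hv e (by rwa [Sym2.eq_swap]) (hτ _ _ _ _ huv hh)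
        · rw [Function.update_of_ne e, Function.update_of_ne e']
          exact h2 u (mem_erase.2 ⟨e', hu⟩) v (mem_erase.2 ⟨e, hv⟩) huv hs

theorem sys_bad [Inhabited β] {k : ℕ} (hk : 3 ≤ k) {𝒦 : Set (Fin n → Fin n → β → β)}
    (h𝒦 : ∀ τ ∈ 𝒦, ∀ u v a b, u ≠ v → b = τ u v a → a = τ v u b) : Sys (Bad k 𝒦) where
  mono := by
    rintro U x y hxy ⟨τ, hτ, L, hL, h⟩
    exact ⟨τ, hτ, L, hL, fun ⟨φ, h1, h2⟩ => h ⟨φ, h1, fun u v huv hs => h2 u v huv (hxy hs)⟩⟩
  rem := by
    rintro U W R S z y hS hd z1 z2 z3 z4 hy ⟨τ, hτ, L, hL, h⟩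
    obtain ⟨φ, h1, h2⟩ := greedy (h𝒦 τ hτ) L S W fun H hH hne => by
      obtain ⟨v, hv, hc⟩ := hd H hH hne
      refine ⟨v, hv, hc.trans_le (le_trans ?_ (hL v))⟩
      split_ifs <;> omega
    refine ⟨τ, hτ, fun v => L v \ (W.filter (fun w => s(w, v) ∈ z)).image (fun w => τ w v (φ w)),
      fun v => ?_, fun ⟨ψ, g1, g2⟩ => h ⟨fun v => if v ∈ W then φ v else ψ v, fun v => ?_,
        fun u v huv hs => ?_⟩⟩
    · rcases (W.filter (fun w => s(w, v) ∈ z)).eq_empty_or_nonempty with e | ⟨w, hw⟩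
      · simp only [e, image_empty, sdiff_empty]
        refine le_trans ?_ (hL v)
        by_cases a : v ∈ U
        · simp [a]
        · rw [if_neg a]; split_ifs <;> omega
      · obtain ⟨a1, a2⟩ := z3 v w (mem_filter.1 hw).1 (mem_filter.1 hw).2
        have a3 : (W.filter (fun w => s(w, v) ∈ z)).card ≤ 1 := card_le_one.2 fun a ha b hb =>
          z2 v a (mem_filter.1 ha).1 b (mem_filter.1 hb).1 (mem_filter.1 ha).2 (mem_filter.1 hb).2
        have a4 := le_card_sdiff ((W.filter (fun w => s(w, v) ∈ z)).image (fun w => τ w v (φ w)))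
          (L v)
        have a5 := (card_image_le (f := fun w => τ w v (φ w))).trans a3
        have a6 := hL v
        rw [if_neg a2] at a6
        rw [if_pos (mem_union_right _ a1)]
        beta_reduce
        omega
    · beta_reduce
      split_ifs with a
      · exact h1 v a
      · exact (mem_sdiff.1 (g1 v)).1
    · have key : ∀ w ∈ W, ∀ v, s(w, v) ∈ z → ψ v ≠ τ w v (φ w) := fun w hw v hs e =>
        (mem_sdiff.1 (g1 v)).2 (mem_image.2 ⟨w, mem_filter.2 ⟨hw, hs⟩, e.symm⟩)
      beta_reduce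
      rcases mem_union.1 hs with hs | hs
      · rcases mem_union.1 hs with hs | hs
        · obtain ⟨w, hw, hw'⟩ := z4 _ hs
          rcases Sym2.mem_iff.1 hw' with rfl | rfl
          · rw [if_pos hw, if_neg fun a => z1 _ hw _ a hs]
            exact key _ hw _ hs
          · rw [if_pos hw, if_neg fun a => z1 _ a _ hw hs]
            exact fun hh => key _ hw u (by rwa [Sym2.eq_swap]) (h𝒦 τ hτ _ _ _ _ huv hh)
        · rw [if_neg fun a => hy _ hs v a (Sym2.mem_mk_right _ _),
            if_neg fun a => hy _ hs u a (Sym2.mem_mk_left _ _)]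
          exact g2 u v huv hs
      · have a := hS _ hs u (Sym2.mem_mk_left _ _)
        have b := hS _ hs v (Sym2.mem_mk_right _ _)
        rw [if_pos a, if_pos b]
        exact h2 u a v b huv hs

/-- relabelling of edges -/
def eqE (π : Equiv.Perm (Fin n)) : Sym2 (Fin n) ≃ Sym2 (Fin n) where
  toFun := Sym2.map π
  invFun := Sym2.map π.symm
  left_inv e := by rw [Sym2.map_map]; simp
  right_inv e := by rw [Sym2.map_map]; simp

lemma eqE_mem (π : Equiv.Perm (Fin n)) (e : Sym2 (Fin n)) : eqE π e ∈ EE n ↔ e ∈ EE n := by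
  simp only [EE, mem_filter, mem_univ, true_and]
  exact not_congr (Sym2.isDiag_map π.injective)

omit [DecidableEq β] in
lemma bad_perm {k : ℕ} {𝒦 : Set (Fin n → Fin n → β → β)} (π : Equiv.Perm (Fin n))
    (h𝒦 : ∀ τ ∈ 𝒦, (fun u v => τ (π.symm u) (π.symm v)) ∈ 𝒦) {U U' : Finset (Fin n)}
    (hU : ∀ w ∈ U, π w ∈ U') {x : Finset (Sym2 (Fin n))} (h : Bad k 𝒦 U x) :
    Bad k 𝒦 U' (x.map (eqE π).toEmbedding) := by
  obtain ⟨τ, hτ, L, hL, h⟩ := h
  refine ⟨_, h𝒦 τ hτ, fun v => L (π.symm v), fun v => le_trans ?_ (hL _), fun ⟨φ, h1, h2⟩ =>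
    h ⟨fun v => φ (π v), fun v => by simpa using h1 (π v), fun u v huv hs => ?_⟩⟩
  · by_cases a : π.symm v ∈ U
    · have := hU _ a
      rw [Equiv.apply_symm_apply] at this
      rw [if_pos a, if_pos this]
    · rw [if_neg a]; split_ifs <;> omega
  · have := h2 (π u) (π v) (π.injective.ne huv) (mem_map.2 ⟨_, hs, rfl⟩)
    simpa using this

/-- edges at a vertex -/
def star (u : Fin n) : Finset (Sym2 (Fin n)) := (EE n).filter (fun e => u ∈ e)

lemma card_star (u : Fin n) : (star u).card ≤ n := by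
  refine (card_le_card (t := univ.image (fun w => s(u, w))) fun e he => ?_).trans
    (card_image_le.trans (by simp))
  obtain ⟨w, rfl⟩ := Sym2.mem_iff_exists.1 (mem_filter.1 he).2
  exact mem_image_of_mem _ (mem_univ _)

lemma card_star_inter {u v : Fin n} (h : u ≠ v) : (star u ∩ star v).card ≤ 1 := by
  refine (card_le_card (t := {s(u, v)}) fun e he => ?_).trans (by simp)
  exact mem_singleton.2 ((Sym2.mem_and_mem_iff h).1
    ⟨(mem_filter.1 (mem_inter.1 he).1).2, (mem_filter.1 (mem_inter.1 he).2).2⟩)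

lemma one_short {k : ℕ} (hk : 3 ≤ k) {U : Finset (Fin n)} {v : Fin n} (hv : v ∉ U) {p C : ℝ}
    (h0 : 0 < p) (h1 : p ≤ 1 / 2) (hC : n * p ≤ C) {δ : ℝ} (hδ : 0 < δ)
    (h : Real.exp (2 * C) + (U.card + 1) * (2 * p) < (U.card + 1) * δ ^ 2) :
    mu (Bad k {fun _ _ => (id : ℕ → ℕ)}) (insert v U) p ≤
      mu (Bad k {fun _ _ => (id : ℕ → ℕ)}) U p + δ := by
  set B := Bad (n := n) k {fun _ _ => (id : ℕ → ℕ)} with hB
  have hsys : Sys B := sys_bad hk fun τ hτ u v a b _ h => by rw [hτ] at h ⊢; exact h.symm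
  by_contra hc
  push Not at hc
  have a1 := plant (E := EE n) h0 (by linarith) 0 (insert v U) star (fun _ _ => filter_subset _ _)
    (fun u _ => card_star u) (fun _ _ _ _ h => card_star_inter h)
    (f := fun x => ind (B (insert v U) x)) (fun _ => ind_nonneg _) (fun _ => ind_le_one _)
  have a2 : ∀ u ∈ insert v U, Ex (EE n) 0 (fun z => Ex (EE n) p
      (fun y => ind (B (insert v U) ((z ∩ star u) ∪ (y \ star u))))) - mu B (insert v U) p ≤ -δ := by
    intro u hu
    rw [Ex_zero, empty_inter]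
    have b1 : Ex (EE n) p (fun y => ind (B (insert v U) (∅ ∪ y \ star u))) ≤
        Ex (EE n) p (fun y => ind (B U (y.map (eqE (Equiv.swap u v)).toEmbedding))) := by
      refine Ex_mono h0.le (by linarith) fun y hy => ind_mono fun hb => ?_
      refine bad_perm (U := (insert v U).erase u) _ (fun τ hτ => by rw [hτ]; rfl) ?_ ?_
      · intro w hw
        obtain ⟨w1, w2⟩ := mem_erase.1 hw
        by_cases e : w = v
        · rw [e, Equiv.swap_apply_right]
          exact (mem_insert.1 hu).resolve_left fun e' => w1 (e.trans e'.symm)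
        · rw [Equiv.swap_apply_of_ne_of_ne w1 e]
          exact (mem_insert.1 w2).resolve_left e
      · refine hsys.mono _ (y \ star u) _ sdiff_subset ?_
        obtain ⟨τ, hτ, L, hL, hb⟩ := hb
        obtain ⟨a, ha⟩ : (L u).Nonempty := card_pos.1 (lt_of_lt_of_le (by split_ifs; omega) (hL u))
        refine ⟨τ, hτ, Function.update L u (range k), fun w => ?_, fun ⟨φ, g1, g2⟩ =>
          hb ⟨Function.update φ u a, fun w => ?_, fun w w' hw hs => ?_⟩⟩
        · by_cases e : w = u
          · rw [e, Function.update_self, card_range]; split_ifs <;> omega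
          · rw [Function.update_of_ne e]
            simpa [e] using hL w
        · by_cases e : w = u
          · rw [e, Function.update_self]; exact ha
          · have := g1 w
            rw [Function.update_of_ne e] at this ⊢
            exact this
        · rw [empty_union] at hs
          have c : u ∉ s(w, w') := fun c =>
            (mem_sdiff.1 hs).2 (mem_filter.2 ⟨hy (mem_sdiff.1 hs).1, c⟩)
          rw [Sym2.mem_iff, not_or] at c
          rw [Function.update_of_ne (Ne.symm c.1), Function.update_of_ne (Ne.symm c.2)]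
          exact g2 w w' hw hs
    rw [Ex_map p _ (eqE_mem _) (fun y => ind (B U y))] at b1
    change _ ≤ mu B U p at b1
    linarith
  have a3 := sum_le_card_nsmul _ _ _ a2
  rw [card_insert_of_notMem hv, nsmul_eq_mul] at a3
  rw [card_insert_of_notMem hv] at a1
  push_cast at a1 a3
  set j : ℝ := U.card + 1 with hj
  have hj0 : 0 < j := by positivity
  have a4 : (0 - p) ^ 2 / (p * (1 - p)) ≤ 2 * p := by
    rw [div_le_iff₀ (mul_pos h0 (by linarith))]; nlinarith [mul_pos h0 h0]
  have a5 : (1 + (0 - p) ^ 2 / (p * (1 - p))) ^ n ≤ Real.exp (2 * C) := by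
    refine (pow_le_pow_left₀ (add_nonneg zero_le_one (div_nonneg (sq_nonneg _)
      (mul_pos h0 (by linarith)).le)) (show _ ≤ Real.exp (2 * p) by
        linarith [Real.add_one_le_exp (2 * p)]) n).trans ?_
    rw [← Real.exp_nat_mul, Real.exp_le_exp]; linarith
  have a6 : (j * δ) ^ 2 ≤ (∑ u ∈ insert v U, (Ex (EE n) 0 (fun z => Ex (EE n) p
      (fun y => ind (B (insert v U) ((z ∩ star u) ∪ (y \ star u))))) - mu B (insert v U) p)) ^ 2 := by
    rw [← neg_sq (∑ u ∈ insert v U, _)]
    exact pow_le_pow_left₀ (by positivity) (by linarith) 2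
  have a7 := a6.trans a1
  rw [pow_one] at a7
  have a8 := mul_le_mul_of_nonneg_left a5 hj0.le
  have a9 := mul_le_mul_of_nonneg_left a4 (sq_nonneg j)
  have := mul_lt_mul_of_pos_left h hj0
  nlinarith

theorem short_seed {k : ℕ} (hk : 3 ≤ k) (U : ∀ n, Finset (Fin n))
    (hU : Tendsto (fun n => (U n).card) atTop atTop) (r : ℕ) (ζ C : ℝ) (hζ : 0 < ζ) (_hC : 0 < C) :
    ∀ᶠ n : ℕ in atTop, ∀ p : ℝ, 0 < p → p ≤ C / n → ∀ R : Finset (Fin n), R.card ≤ r →
      mu (Bad k {fun _ _ => (id : ℕ → ℕ)}) (U n ∪ R) p <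
        mu (Bad k {fun _ _ => (id : ℕ → ℕ)}) (U n) p + ζ := by
  set δ := ζ / (r + 1) with hδ
  have hδ0 : 0 < δ := by positivity
  obtain ⟨m, hm⟩ := exists_nat_ge (2 * Real.exp (2 * C) / δ ^ 2)
  have ht := tendsto_const_div_atTop_nhds_zero_nat C
  filter_upwards [hU.eventually_ge_atTop m, ht.eventually (ge_mem_nhds one_half_pos),
    ht.eventually (ge_mem_nhds (show 0 < δ ^ 2 / 4 by positivity)), eventually_gt_atTop 0]
    with n h1 h2 h3 hn p h0 hp R hR
  have hn' : (0 : ℝ) < n := by exact_mod_cast hn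
  have hnp : n * p ≤ C := by rwa [le_div_iff₀ hn', mul_comm] at hp
  have key : ∀ R : Finset (Fin n), mu (Bad k {fun _ _ => (id : ℕ → ℕ)}) (U n ∪ R) p ≤
      mu (Bad k {fun _ _ => (id : ℕ → ℕ)}) (U n) p + R.card * δ := by
    intro R
    induction R using Finset.induction_on with
    | empty => simp
    | insert v R hv ih =>
      rw [union_insert, card_insert_of_notMem hv]
      push_cast
      by_cases a : v ∈ U n ∪ R
      · rw [insert_eq_of_mem a]; linarith
      · have b1 : (m : ℝ) ≤ (U n ∪ R).card := by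
          exact_mod_cast h1.trans (card_le_card subset_union_left)
        have b2 := hm.trans b1
        rw [div_le_iff₀ (by positivity)] at b2
        have b3 : (0 : ℝ) ≤ (U n ∪ R).card := Nat.cast_nonneg _
        have := one_short hk a h0 (hp.trans h2) hnp hδ0 (by
          have : (((U n ∪ R).card : ℝ) + 1) * (2 * p) ≤ ((U n ∪ R).card + 1) * (δ ^ 2 / 2) :=
            mul_le_mul_of_nonneg_left (by linarith) (by linarith)
          nlinarith [pow_pos hδ0 2])
        linarith
  refine (key R).trans_lt ?_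
  have : (R.card : ℝ) ≤ r := by exact_mod_cast hR
  have e : ζ = (r + 1) * δ := by rw [hδ]; field_simp
  nlinarith

end Pool.Agent.P.MP_e76ef6_pr
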