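import Pool.Agent.P.MP_e76ef6_pr.Nice

/-!
From a booster to a bounded set of marked vertices, and the abstract sharp threshold theorem.
-/

namespace Pool.Agent.P.MP_e76ef6_pr

open Finset Filter Topology

variable {n : ℕ}

/-- An increasing family of properties `B U` in which a degenerate planted graph can be traded for
marks on the neighbours of its vertices. -/
structure Sys (B : Finset (Fin n) → Finset (Sym2 (Fin n)) → Prop) : Prop where
  mono : ∀ U x y, x ⊆ y → B U x → B U y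
  rem : ∀ (U W R : Finset (Fin n)) (S z y : Finset (Sym2 (Fin n))), (∀ e ∈ S, ∀ v ∈ e, v ∈ W) →
    Degen U W S → (∀ w ∈ W, ∀ w' ∈ W, s(w, w') ∉ z) →
    (∀ v, ∀ w ∈ W, ∀ w' ∈ W, s(w, v) ∈ z → s(w', v) ∈ z → w = w') →
    (∀ v, ∀ w ∈ W, s(w, v) ∈ z → v ∈ R ∧ v ∉ U) → (∀ e ∈ z, ∃ w ∈ W, w ∈ e) →
    (∀ e ∈ y, ∀ w ∈ W, w ∉ e) → B U (z ∪ y ∪ S) → B (U ∪ R) y

/-- probability of `B U` -/
noncomputable def mu (B : Finset (Fin n) → Finset (Sym2 (Fin n)) → Prop) (U : Finset (Fin n))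
    (p : ℝ) : ℝ := Ex (EE n) p (fun x => ind (B U x))

lemma mu_nonneg (B : Finset (Fin n) → Finset (Sym2 (Fin n)) → Prop) (U : Finset (Fin n)) {p : ℝ}
    (h0 : 0 ≤ p) (h1 : p ≤ 1) : 0 ≤ mu B U p := Ex_nonneg h0 h1 fun _ _ => ind_nonneg _

lemma mu_le_one (B : Finset (Fin n) → Finset (Sym2 (Fin n)) → Prop) (U : Finset (Fin n)) {p : ℝ}
    (h0 : 0 ≤ p) (h1 : p ≤ 1) : mu B U p ≤ 1 := Ex_le_const h0 h1 fun _ _ => ind_le_one _

lemma removal {B : Finset (Fin n) → Finset (Sym2 (Fin n)) → Prop} (hB : Sys B)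
    {U W : Finset (Fin n)} {S : Finset (Sym2 (Fin n))} (hS : ∀ e ∈ S, ∀ v ∈ e, v ∈ W)
    (hd : Degen U W S) {p M : ℝ} (h0 : 0 ≤ p) (h1 : p ≤ 1) {r : ℕ} (hr : 0 < r) (hM0 : 0 ≤ M)
    (hM : ∀ R : Finset (Fin n), R.card ≤ r → mu B (U ∪ R) p ≤ M) :
    Ex (EE n) p (fun y => ind (B U (y ∪ S))) ≤ M + (W.card ^ 2 * p + n * W.card ^ 2 * p ^ 2 +
      W.card * U.card * p + W.card * n * p / r) := by
  set F := (EE n).filter (fun e => ∃ w ∈ W, w ∈ e) with hF
  set b1 : Finset (Sym2 (Fin n)) → ℝ := fun z =>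
    ∑ q ∈ W ×ˢ W, if ({s(q.1, q.2)} : Finset _) ⊆ z then 1 else 0 with hb1
  set b2 : Finset (Sym2 (Fin n)) → ℝ := fun z =>
    ∑ q ∈ (univ : Finset (Fin n)) ×ˢ W.offDiag,
      if ({s(q.2.1, q.1), s(q.2.2, q.1)} : Finset _) ⊆ z then 1 else 0 with hb2
  set b3 : Finset (Sym2 (Fin n)) → ℝ := fun z =>
    ∑ q ∈ W ×ˢ U, if ({s(q.1, q.2)} : Finset _) ⊆ z then 1 else 0 with hb3
  set b4 : Finset (Sym2 (Fin n)) → ℝ := fun z =>
    ∑ q ∈ W ×ˢ (univ : Finset (Fin n)), if ({s(q.1, q.2)} : Finset _) ⊆ z then 1 else 0 with hb4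
  have hr' : (0 : ℝ) < r := by exact_mod_cast hr
  have key : ∀ z, Ex (EE n) p (fun y => ind (B U (((z ∩ F) ∪ (y \ F)) ∪ S))) ≤
      M + (b1 z + b2 z + b3 z + 1 / r * b4 z) := by
    intro z
    have n1 : 0 ≤ b1 z := count_nonneg _ _ _
    have n2 : 0 ≤ b2 z := count_nonneg _ _ _
    have n3 : 0 ≤ b3 z := count_nonneg _ _ _
    have n4 : 0 ≤ 1 / r * b4 z := mul_nonneg (by positivity) (count_nonneg _ _ _)
    by_cases hz : 1 ≤ b1 z + b2 z + b3 z + 1 / r * b4 z
    · exact (Ex_le_const h0 h1 fun _ _ => ind_le_one _).trans (by linarith)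
    push Not at hz
    set R := univ.filter (fun v => ∃ w ∈ W, s(w, v) ∈ z) with hR
    have hRc : R.card ≤ r := by
      have c1 : (R.card : ℝ) ≤ b4 z := by
        simp only [hb4]
        rw [sum_product_right, hR, card_filter]
        push_cast
        refine sum_le_sum fun v _ => ?_
        split_ifs with h
        · obtain ⟨w, hw, h⟩ := h
          exact one_le_count (F := fun w => {s(w, v)}) hw (singleton_subset_iff.2 h)
        · exact count_nonneg _ (fun w => {s(w, v)}) _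
      have c2 : b4 z < r := by
        have : 1 / r * b4 z < 1 := by linarith
        rwa [one_div_mul_eq_div, div_lt_one hr'] at this
      exact_mod_cast (c1.trans c2.le)
    refine le_trans (Ex_mono h0 h1 fun y hy => ind_mono fun h => ?_) ((hM R hRc).trans
      (by linarith))
    refine hB.mono _ _ _ sdiff_subset (hB.rem U W R S (z ∩ F) (y \ F) hS hd ?_ ?_ ?_ ?_ ?_ h)
    · intro w hw w' hw' h
      have : 1 ≤ b1 z := one_le_count (F := fun q : Fin n × Fin n => {s(q.1, q.2)}) (i := (w, w'))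
        (mem_product.2 ⟨hw, hw'⟩) (singleton_subset_iff.2 (mem_inter.1 h).1)
      linarith
    · intro v w hw w' hw' h h'
      by_contra hne
      have : 1 ≤ b2 z := one_le_count
        (F := fun q : Fin n × Fin n × Fin n => {s(q.2.1, q.1), s(q.2.2, q.1)}) (i := (v, w, w'))
        (mem_product.2 ⟨mem_univ _, mem_offDiag.2 ⟨hw, hw', hne⟩⟩)
        (insert_subset (mem_inter.1 h).1 (singleton_subset_iff.2 (mem_inter.1 h').1))
      linarith
    · intro v w hw h
      refine ⟨mem_filter.2 ⟨mem_univ _, w, hw, (mem_inter.1 h).1⟩, fun hv => ?_⟩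
      have : 1 ≤ b3 z := one_le_count (F := fun q : Fin n × Fin n => {s(q.1, q.2)}) (i := (w, v))
        (mem_product.2 ⟨hw, hv⟩) (singleton_subset_iff.2 (mem_inter.1 h).1)
      linarith
    · exact fun e he => (mem_filter.1 (mem_inter.1 he).2).2
    · intro e he w hw hwe
      exact (mem_sdiff.1 he).2 (mem_filter.2 ⟨hy (mem_sdiff.1 he).1, w, hw, hwe⟩)
  rw [Ex_split p F]
  refine (Ex_mono h0 h1 fun z _ => key z).trans ?_
  rw [Ex_add, Ex_add, Ex_add, Ex_add, Ex_mul, Ex_const]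
  have e1 : Ex (EE n) p b1 ≤ W.card ^ 2 * p := by
    refine (Ex_count_le h0 h1 _ _ (m := 1) fun _ _ => by simp).trans (le_of_eq ?_)
    rw [card_product]; push_cast; ring
  have e2 : Ex (EE n) p b2 ≤ n * W.card ^ 2 * p ^ 2 := by
    refine (Ex_count_le h0 h1 _ _ (m := 2) fun q hq => ?_).trans ?_
    · rw [card_pair]
      rw [Ne, Sym2.congr_left]
      exact (mem_offDiag.1 (mem_product.1 hq).2).2.2
    · refine mul_le_mul_of_nonneg_right ?_ (sq_nonneg _)
      rw [card_product, card_univ, Fintype.card_fin, offDiag_card]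
      have : n * (W.card * W.card - W.card) ≤ n * W.card ^ 2 :=
        Nat.mul_le_mul_left _ (by rw [sq]; omega)
      exact_mod_cast this
  have e3 : Ex (EE n) p b3 ≤ W.card * U.card * p := by
    refine (Ex_count_le h0 h1 _ _ (m := 1) fun _ _ => by simp).trans (le_of_eq ?_)
    rw [card_product]; push_cast; ring
  have e4 : Ex (EE n) p b4 ≤ W.card * n * p := by
    refine (Ex_count_le h0 h1 _ _ (m := 1) fun _ _ => by simp).trans (le_of_eq ?_)
    rw [card_product, card_univ, Fintype.card_fin]; push_cast; ring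
  have e5 := mul_le_mul_of_nonneg_left e4 (show (0 : ℝ) ≤ 1 / r by positivity)
  rw [one_div_mul_eq_div (r : ℝ) (W.card * n * p)] at e5
  linarith

lemma cnd_ge {α : Type*} [DecidableEq α] {E : Finset α} {p : ℝ} (h0 : 0 ≤ p) (h1 : p ≤ 1)
    {f : Finset α → ℝ} (f0 : ∀ x, 0 ≤ f x) (f1 : ∀ x, f x ≤ 1) (hm : ∀ x y, x ⊆ y → f x ≤ f y)
    (T x : Finset α) : Ex E p f - T.card * p ≤ cnd E p f T x := by
  have a1 := Ex_count_le (E := E) h0 h1 T (fun i => {i}) (m := 1) fun _ _ => by simp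
  have a2 : Ex E p f ≤ Ex E p (fun y => f ((x ∩ T) ∪ (y \ T)) +
      ∑ i ∈ T, if ({i} : Finset α) ⊆ y then 1 else 0) := by
    refine Ex_mono h0 h1 fun y _ => ?_
    by_cases h : ∃ i ∈ T, i ∈ y
    · obtain ⟨i, hi, hy⟩ := h
      have := one_le_count (F := fun i => ({i} : Finset α)) hi (singleton_subset_iff.2 hy)
      linarith [f1 y, f0 ((x ∩ T) ∪ (y \ T))]
    · have : y ⊆ (x ∩ T) ∪ (y \ T) := fun i hi =>
        mem_union_right _ (mem_sdiff.2 ⟨hi, fun hT => h ⟨i, hT, hi⟩⟩)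
      linarith [hm _ _ this, count_nonneg T (fun i => ({i} : Finset α)) y]
  rw [Ex_add] at a2
  rw [pow_one] at a1
  unfold cnd
  linarith

lemma Degen.mono {U W : Finset (Fin n)} {S x : Finset (Sym2 (Fin n))} (h : Degen U W x)
    (hS : S ⊆ x) : Degen U W S := fun H hH hne => by
  obtain ⟨v, hv, h⟩ := h H hH hne
  refine ⟨v, hv, lt_of_le_of_lt (card_le_card fun u hu => ?_) h⟩
  have := mem_filter.1 hu
  exact mem_filter.2 ⟨this.1, this.2.1, hS this.2.2⟩

lemma exists_cover (S : Finset (Sym2 (Fin n))) :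
    ∃ W : Finset (Fin n), W.card ≤ 2 * S.card ∧ ∀ e ∈ S, ∀ v ∈ e, v ∈ W := by
  refine ⟨S.biUnion Sym2.toFinset, ?_, fun e he v hv => mem_biUnion.2 ⟨e, he, by simpa using hv⟩⟩
  rw [mul_comm]
  refine card_biUnion_le_card_mul _ _ _ fun e _ => ?_
  rw [Sym2.card_toFinset]; split_ifs <;> norm_num

theorem boost (K v C : ℝ) (hK : 0 < K) (hv : 0 < v) (hC : 0 < C) :
    ∃ (r : ℕ) (ζ θ : ℝ), 0 < ζ ∧ 0 < θ ∧ ∀ᶠ n : ℕ in atTop,
      ∀ B : Finset (Fin n) → Finset (Sym2 (Fin n)) → Prop, Sys B → ∀ U : Finset (Fin n),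
      (U.card : ℝ) ≤ θ * n → ∀ p : ℝ, 0 < p → p ≤ C / n → v ≤ mu B U p * (1 - mu B U p) →
      p * (1 - p) * ∑ i ∈ EE n, Ex (EE n) p
        (fun x => ind (B U (insert i x)) - ind (B U (x.erase i))) ≤ K →
      ∃ R : Finset (Fin n), R.card ≤ r ∧ mu B U p + ζ ≤ mu B (U ∪ R) p := by
  obtain ⟨d, β, γ, hβ, hγ, hbo⟩ := bourgain K v hK hv
  set D : ℝ := ((2 * d : ℕ) : ℝ) with hD
  have hD0 : 0 ≤ D := Nat.cast_nonneg _
  set A : ℝ := (D + 1) ^ 2 with hA
  have hA0 : 0 < A := by positivity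
  set g : ℝ := min γ 1 with hg
  have hg0 : 0 < g := lt_min hγ one_pos
  obtain ⟨r, hr⟩ := exists_nat_ge (8 * D * C / β + 1)
  have hr0 : (0 : ℝ) < r := lt_of_lt_of_le (by positivity) hr
  set θ : ℝ := min (g / (8 * A * C)) (β / (8 * (D + 1) * C)) with hθ
  have hθ0 : 0 < θ := lt_min (by positivity) (by positivity)
  refine ⟨r, β / 2, θ, by positivity, hθ0, ?_⟩
  have ht : Tendsto (fun n : ℕ => C / (n : ℝ)) atTop (𝓝 0) := tendsto_const_div_atTop_nhds_zero_nat C
  have ev : ∀ (φ : ℝ → ℝ) (c : ℝ), Continuous φ → φ 0 < c → ∀ᶠ n : ℕ in atTop, φ (C / n) < c :=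
    fun φ c h1 h2 => ((h1.tendsto 0).comp ht).eventually (gt_mem_nhds h2)
  filter_upwards [ev (fun t => t) 1 (by fun_prop) (by norm_num),
    ev (fun t => d * t) β (by fun_prop) (by simpa using hβ),
    ev (fun t => A * t) 1 (by fun_prop) (by norm_num),
    ev (fun t => A * C * √(A * t)) (g / 8) (by fun_prop) (by simpa using hg0),
    ev (fun t => D ^ 2 * t + D ^ 2 * C * t) (β / 8) (by fun_prop) (by simpa using hβ),
    eventually_gt_atTop 0] with n c1 c2 c3 c4 c5 hn B hB U hU p h0 hp hvar hI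
  have hn' : (0 : ℝ) < n := by exact_mod_cast hn
  have h1 : p < 1 := hp.trans_lt c1
  have hnp : n * p ≤ C := by rwa [le_div_iff₀ hn', mul_comm] at hp
  have hUp : U.card * p ≤ θ * C := by nlinarith
  set f : Finset (Sym2 (Fin n)) → ℝ := fun x => ind (B U x) with hf
  have hm : ∀ x y, x ⊆ y → f x ≤ f y := fun x y h => ind_mono (hB.mono U x y h)
  have hff : Ex (EE n) p (fun x => f x * f x) = mu B U p :=
    Ex_congr fun x _ => by simp only [hf, ind]; split_ifs <;> norm_num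
  have a1 := hbo n (EE n) p f h0 h1 (fun _ => ind_nonneg _) (fun _ => ind_le_one _) hm hI
    (by rw [hff]; change v ≤ mu B U p - mu B U p ^ 2; linarith)
  have a2 : U.card * (A * p) + n * (A * p) * √(A * p) ≤ g / 4 := by
    have e1 : U.card * (A * p) ≤ g / 8 := by
      have : θ ≤ g / (8 * A * C) := min_le_left _ _
      rw [le_div_iff₀ (by positivity)] at this
      nlinarith
    have e2 : n * (A * p) * √(A * p) ≤ A * C * √(A * (C / n)) :=
      mul_le_mul (by nlinarith) (Real.sqrt_le_sqrt (by nlinarith)) (Real.sqrt_nonneg _)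
        (by positivity)
    linarith
  have a3 := nice_bound (EE n) U (2 * d) h0.le (by change A * p ≤ 1; nlinarith)
    (by change U.card * (A * p) + n * (A * p) * √(A * p) ≤ 1
        linarith [min_le_right γ 1])
  change _ ≤ 2 * (U.card * (A * p) + n * (A * p) * √(A * p)) at a3
  by_contra hcon
  push Not at hcon
  have a4 : γ ≤ Ex (EE n) p (fun x => ind (∃ W : Finset (Fin n), W.card ≤ 2 * d ∧ ¬ Degen U W x)) := by
    refine a1.trans (Ex_mono h0.le h1.le fun x _ => ?_)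
    split_ifs with hx
    swap
    · exact ind_nonneg _
    obtain ⟨T, _, hTd, hT⟩ := hx
    obtain ⟨W, hW, hSW⟩ := exists_cover (x ∩ T)
    have hW' : W.card ≤ 2 * d := hW.trans (Nat.mul_le_mul_left 2
      ((card_le_card inter_subset_right).trans hTd))
    refine (ind_pos ⟨W, hW', fun hdeg => ?_⟩).ge
    have b1 := removal hB hSW (hdeg.mono inter_subset_left) h0.le h1.le (r := r)
      (M := mu B U p + β / 2) (by exact_mod_cast hr0)
      (by linarith [mu_nonneg B U h0.le h1.le]) fun R hR => (hcon R hR).le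
    have b2 := cnd_ge (E := EE n) h0.le h1.le (f := f) (fun _ => ind_nonneg _)
      (fun _ => ind_le_one _) hm T x
    have b3 : cnd (EE n) p f T x ≤ Ex (EE n) p (fun y => ind (B U (y ∪ x ∩ T))) :=
      Ex_mono h0.le h1.le fun y _ => hm _ _
        (union_subset subset_union_right (sdiff_subset.trans subset_union_left))
    have b4 : (T.card : ℝ) * p < β := by
      have : (T.card : ℝ) ≤ d := by exact_mod_cast hTd
      have := mul_le_mul this hp h0.le (Nat.cast_nonneg _)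
      linarith
    have b5 : Ex (EE n) p f + β ≤ cnd (EE n) p f T x := by
      rcases le_abs.1 hT with h | h <;> linarith
    have hWD : (W.card : ℝ) ≤ D := by rw [hD]; exact_mod_cast hW'
    have hW0 : (0 : ℝ) ≤ W.card := Nat.cast_nonneg _
    have hW2 : (W.card : ℝ) ^ 2 ≤ D ^ 2 := pow_le_pow_left₀ hW0 hWD 2
    have b6 : (W.card : ℝ) ^ 2 * p ≤ D ^ 2 * (C / n) := mul_le_mul hW2 hp h0.le (sq_nonneg _)
    have b7 : n * (W.card : ℝ) ^ 2 * p ^ 2 ≤ D ^ 2 * C * (C / n) := by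
      have := mul_le_mul b6 hnp (by positivity) (by positivity)
      nlinarith
    have b8 : (W.card : ℝ) * U.card * p ≤ β / 8 := by
      have e1 : θ ≤ β / (8 * (D + 1) * C) := min_le_right _ _
      rw [le_div_iff₀ (by positivity)] at e1
      have := mul_le_mul hWD hUp (by positivity) hD0
      nlinarith [mul_pos hθ0 hC]
    have b9 : (W.card : ℝ) * n * p / r ≤ β / 8 := by
      rw [div_le_iff₀ hr0]
      have e1 : 8 * D * C / β ≤ r := by linarith
      rw [div_le_iff₀ hβ] at e1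
      have := mul_le_mul hWD hnp (by positivity) hD0
      nlinarith
    change mu B U p + β ≤ _ at b5
    linarith
  linarith [min_le_left γ 1]

end Pool.Agent.P.MP_e76ef6_pr
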