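import Pool.Agent.P.MP_e76ef6_pr.Rand

/-!
Bourgain's theorem: bounded total influence gives bounded boosters inside a typical point.
-/

namespace Pool.Agent.P.MP_e76ef6_pr

open Finset

variable {α : Type*} [DecidableEq α]

/-- conditional expectation of `f` given the coordinates of `x` in `T` -/
noncomputable def cnd (E : Finset α) (p : ℝ) (f : Finset α → ℝ) (T x : Finset α) : ℝ :=
  Ex E p (fun y => f ((x ∩ T) ∪ (y \ T)))

lemma cnd_eq {E : Finset α} {p : ℝ} (h0 : 0 < p) (h1 : p < 1) (f : Finset α → ℝ) {T : Finset α}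
    (hT : T ⊆ E) (x : Finset α) :
    cnd E p f T x = ∑ S ∈ T.powerset, hat E p f S * chi p S x := by
  have e1 : cnd E p f T x = Ex E p (fun y => ∑ S ∈ E.powerset,
      hat E p f S * chi p (S ∩ T) x * (chi p (S \ T) y * chi p ∅ y)) := by
    refine Ex_congr fun y hy => ?_
    rw [expansion h0 h1 f (E := E) (union_subset (inter_subset_right.trans hT)
      (sdiff_subset.trans hy))]
    refine sum_congr rfl fun S _ => ?_
    have a1 : chi p S ((x ∩ T) ∪ (y \ T)) =
        chi p (S ∩ T) ((x ∩ T) ∪ (y \ T)) * chi p (S \ T) ((x ∩ T) ∪ (y \ T)) :=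
      (prod_inter_mul_prod_sdiff S T _).symm
    have a2 : chi p (S ∩ T) ((x ∩ T) ∪ (y \ T)) = chi p (S ∩ T) x :=
      chi_congr p fun i hi => by simp [(mem_inter.1 hi).2]
    have a3 : chi p (S \ T) ((x ∩ T) ∪ (y \ T)) = chi p (S \ T) y :=
      chi_congr p fun i hi => by simp [(mem_sdiff.1 hi).2]
    rw [a1, a2, a3, chi_empty]; ring
  rw [e1, Ex_sum]
  symm
  refine sum_subset_zero_on_sdiff (powerset_mono.2 hT) (fun S hS => ?_) (fun S hS => ?_)
  · have hS' := mem_sdiff.1 hS
    rw [Ex_mul, chi_orth h0 h1 (sdiff_subset.trans (mem_powerset.1 hS'.1)) (empty_subset E),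
      if_neg, mul_zero]
    rw [sdiff_eq_empty_iff_subset]
    exact fun h => hS'.2 (mem_powerset.2 h)
  · have hS' := mem_powerset.1 hS
    rw [Ex_mul, sdiff_eq_empty_iff_subset.2 hS', inter_eq_left.2 hS']
    simp [chi_empty, Ex_const]

lemma nonboost {E : Finset α} {p : ℝ} (h0 : 0 < p) (h1 : p < 1) (f : Finset α → ℝ) {d : ℕ} {β : ℝ}
    (hβ : 0 ≤ β) {x : Finset α} (hx : ∀ T ⊆ E, T.card ≤ d → |cnd E p f T x - Ex E p f| ≤ β)
    (T : Finset α) : T ⊆ E → T.card ≤ d → T ≠ ∅ →
      |hat E p f T * chi p T x| ≤ β * (2 ^ d + 1) ^ T.card := by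
  induction T using Finset.strongInduction with
  | H T ih =>
    intro hT hd hne
    have h2 := hx T hT hd
    have hm : T ∈ T.powerset.erase ∅ := mem_erase.2 ⟨hne, mem_powerset_self T⟩
    rw [cnd_eq h0 h1 f hT, ← add_sum_erase _ _ (empty_mem_powerset T), ← add_sum_erase _ _ hm] at h2
    have e0 : hat E p f ∅ * chi p ∅ x = Ex E p f := by simp [hat, chi_empty]
    rw [e0, add_sub_cancel_left] at h2
    obtain ⟨m, hm'⟩ : ∃ m, T.card = m + 1 := Nat.exists_eq_succ_of_ne_zero (card_ne_zero.2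
      (nonempty_iff_ne_empty.2 hne))
    have h3 : |∑ S ∈ (T.powerset.erase ∅).erase T, hat E p f S * chi p S x| ≤
        2 ^ d * (β * (2 ^ d + 1) ^ m) := by
      refine (abs_sum_le_sum_abs _ _).trans ?_
      refine (sum_le_card_nsmul _ _ (β * (2 ^ d + 1) ^ m) fun S hS => ?_).trans ?_
      · have a1 := mem_erase.1 hS
        have a2 := mem_erase.1 a1.2
        have a3 : S ⊂ T := Finset.ssubset_iff_subset_ne.2 ⟨mem_powerset.1 a2.2, a1.1⟩
        have a4 := card_lt_card a3
        refine (ih S a3 (a3.subset.trans hT) (by omega) a2.1).trans ?_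
        exact mul_le_mul_of_nonneg_left (pow_le_pow_right₀
          (by linarith [show (0 : ℝ) ≤ 2 ^ d by positivity]) (by omega)) hβ
      · rw [nsmul_eq_mul]
        refine mul_le_mul_of_nonneg_right ?_ (by positivity)
        have : ((T.powerset.erase ∅).erase T).card ≤ 2 ^ d :=
          card_erase_le.trans (card_erase_le.trans (by
            rw [card_powerset]; exact Nat.pow_le_pow_right (by norm_num) hd))
        exact_mod_cast this
    have h4 : β ≤ β * (2 ^ d + 1) ^ m := le_mul_of_one_le_right hβ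
      (one_le_pow₀ (by linarith [show (0 : ℝ) ≤ 2 ^ d by positivity]))
    have h5 := abs_sub (hat E p f T * chi p T x +
      ∑ S ∈ (T.powerset.erase ∅).erase T, hat E p f S * chi p S x)
      (∑ S ∈ (T.powerset.erase ∅).erase T, hat E p f S * chi p S x)
    rw [add_sub_cancel_right] at h5
    rw [hm', pow_succ]
    nlinarith

lemma high_weight {E : Finset α} {p : ℝ} (h0 : 0 < p) (h1 : p < 1) {f : Finset α → ℝ}
    (f0 : ∀ x, 0 ≤ f x) (f1 : ∀ x, f x ≤ 1) (d : ℕ) :
    (d : ℝ) * ∑ S ∈ E.powerset.filter (fun S => ¬ S.card ≤ d), hat E p f S ^ 2 ≤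
      ∑ i ∈ E, Ex E p (fun x => |Lp p i f x|) := by
  have a1 : ∀ i ∈ E, ∑ S ∈ E.powerset, (if i ∈ S then hat E p f S ^ 2 else 0) ≤
      Ex E p (fun x => |Lp p i f x|) := by
    intro i hi
    have b1 := parseval (E := E) h0 h1 (Lp p i f) (Lp p i f)
    have b2 : ∑ S ∈ E.powerset, (if i ∈ S then hat E p f S ^ 2 else 0) =
        ∑ S ∈ E.powerset, hat E p (Lp p i f) S * hat E p (Lp p i f) S :=
      sum_congr rfl fun S _ => by rw [hat_Lp p hi]; split_ifs <;> ring
    rw [b2, ← b1]
    refine Ex_mono h0.le h1.le fun x _ => ?_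
    rw [← abs_mul_abs_self]
    exact mul_le_of_le_one_left (abs_nonneg _) (abs_Lp_le h0.le h1.le i f0 f1 x)
  refine le_trans ?_ (sum_le_sum a1)
  rw [sum_comm, mul_sum]
  refine le_trans (sum_le_sum fun S hS => ?_) (sum_le_sum_of_subset_of_nonneg
    (filter_subset (fun S : Finset α => ¬ S.card ≤ d) _)
    fun S _ _ => sum_nonneg fun i _ => by positivity)
  have hS' := mem_filter.1 hS
  rw [sum_ite_mem, inter_eq_right.2 (mem_powerset.1 hS'.1), sum_const, nsmul_eq_mul]
  exact mul_le_mul_of_nonneg_right (by exact_mod_cast (not_le.1 hS'.2).le) (sq_nonneg _)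

open Classical in
theorem bourgain (K v : ℝ) (hK : 0 < K) (hv : 0 < v) : ∃ (d : ℕ) (β γ : ℝ), 0 < β ∧ 0 < γ ∧
    ∀ (n : ℕ) (E : Finset (Sym2 (Fin n))) (p : ℝ) (f : Finset (Sym2 (Fin n)) → ℝ), 0 < p → p < 1 →
      (∀ x, 0 ≤ f x) → (∀ x, f x ≤ 1) → (∀ x y, x ⊆ y → f x ≤ f y) →
      p * (1 - p) * ∑ i ∈ E, Ex E p (fun x => f (insert i x) - f (x.erase i)) ≤ K →
      v ≤ Ex E p (fun x => f x * f x) - Ex E p f ^ 2 →
      γ ≤ Ex E p (fun x => if ∃ T ⊆ E, T.card ≤ d ∧ β ≤ |cnd E p f T x - Ex E p f|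
        then 1 else 0) := by
  obtain ⟨d, hd⟩ := exists_nat_ge (8 * K / v)
  have hd0 : (0 : ℝ) < d := lt_of_lt_of_le (by positivity) hd
  set t : ℝ := v / (12 * K) with ht
  have ht0 : 0 < t := by positivity
  set τ : ℝ := 2 * t ^ 3 / 729 ^ d with hτ
  have hτ0 : 0 < τ := by positivity
  set Λ : ℝ := 8 * 81 ^ d / v with hΛ
  have hΛ0 : 0 < Λ := by positivity
  obtain ⟨N, hN⟩ := exists_nat_ge (d * Λ / τ)
  set B : ℝ := (2 ^ d + 1) ^ d with hB
  have hB0 : 0 < B := by positivity
  set β : ℝ := √(v / 8 / 2 ^ N) / B with hβ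
  have hβ0 : 0 < β := by positivity
  refine ⟨d, β, v / (4 * Λ), hβ0, by positivity, fun n E p f h0 h1 f0 f1 hm hI hvar => ?_⟩
  set F : Finset (Sym2 (Fin n)) → Finset (Sym2 (Fin n)) → ℝ :=
    fun S x => (hat E p f S * chi p S x) ^ 2 with hF
  have hF0 : ∀ S x, 0 ≤ F S x := fun _ _ => sq_nonneg _
  set L := E.powerset.filter (fun S => S.card ≤ d) with hL
  set V : Finset (Sym2 (Fin n)) → ℝ := fun x => ∑ S ∈ L, F S x with hV
  set W : Sym2 (Fin n) → Finset (Sym2 (Fin n)) → ℝ :=
    fun i x => ∑ S ∈ L.filter (fun S => i ∈ S), F S x with hW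
  set s : Sym2 (Fin n) → Finset (Sym2 (Fin n)) → ℝ := fun i x => if W i x ≤ τ then W i x else 0
    with hs
  set b : Finset (Sym2 (Fin n)) → ℝ := fun x =>
    if ∃ T ⊆ E, T.card ≤ d ∧ β ≤ |cnd E p f T x - Ex E p f| then 1 else 0 with hb
  have hLp : ∑ i ∈ E, Ex E p (fun x => |Lp p i f x|) ≤ 2 * K := by
    rw [sum_congr rfl fun i hi => Ex_abs_Lp h0.le h1.le hi hm, ← mul_sum, ← mul_sum]
    linarith
  have hV2 : Ex E p (fun x => V x ^ 2) ≤ 81 ^ d :=
    V_sq h0 h1 (fun x => abs_le.2 ⟨by linarith [f0 x], f1 x⟩) d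
  have hsm : ∑ i ∈ E, Ex E p (s i) ≤ v / 4 := by
    have a1 : ∀ i ∈ E, Ex E p (s i) ≤ 3 / 2 * t * Ex E p (fun x => |Lp p i f x|) := fun i hi =>
      small_part h0 h1 hi f0 f1 ((filter_subset _ _).trans (filter_subset _ _))
        (fun S hS => (mem_filter.1 (mem_filter.1 hS).1).2) (fun S hS => (mem_filter.1 hS).2) ht0
    refine (sum_le_sum a1).trans ?_
    rw [← mul_sum]
    refine (mul_le_mul_of_nonneg_left hLp (by positivity)).trans (le_of_eq ?_)
    rw [ht]; field_simp; norm_num
  have hlow : 3 * v / 4 ≤ Ex E p (fun x => ∑ S ∈ L.erase ∅, F S x) := by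
    have a1 : Ex E p (fun x => ∑ S ∈ L.erase ∅, F S x) = ∑ S ∈ L.erase ∅, hat E p f S ^ 2 := by
      rw [Ex_sum]
      refine sum_congr rfl fun S hS => ?_
      have hS' := mem_powerset.1 (mem_filter.1 (mem_of_mem_erase hS)).1
      have := chi_orth h0 h1 hS' hS'
      rw [if_pos rfl] at this
      rw [← mul_one (hat E p f S ^ 2), ← this, ← Ex_mul]
      exact Ex_congr fun x _ => by simp only [hF]; ring
    have a2 := parseval (E := E) h0 h1 f f
    have a3 : (∅ : Finset (Sym2 (Fin n))) ∈ L := mem_filter.2 ⟨empty_mem_powerset E, by simp⟩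
    rw [← sum_filter_add_sum_filter_not E.powerset (fun S => S.card ≤ d), ← hL,
      ← add_sum_erase _ _ a3] at a2
    have a4 : hat E p f ∅ = Ex E p f := by simp [hat, chi_empty]
    simp only [a4, ← sq] at a2
    have a5 := (high_weight (E := E) h0 h1 f0 f1 d).trans hLp
    have a6 : ∑ S ∈ E.powerset.filter (fun S => ¬ S.card ≤ d), hat E p f S ^ 2 ≤ v / 4 := by
      rw [div_le_iff₀ hv] at hd
      by_contra hc
      have := mul_lt_mul_of_pos_left (not_le.1 hc) hd0
      nlinarith
    simp only [← sq] at hvar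
    rw [a1]; linarith
  have hpt : ∀ x, ∑ S ∈ L.erase ∅, F S x ≤
      ∑ i ∈ E, s i x + (1 / Λ * V x ^ 2 + v / 8 + Λ * b x) := by
    intro x
    set J := E.filter (fun i => ¬ W i x ≤ τ) with hJ
    have hV0 : 0 ≤ V x := sum_nonneg fun S _ => hF0 S x
    rw [← sum_filter_add_sum_filter_not (L.erase ∅) (fun S => S ⊆ J), add_comm]
    refine add_le_add ?_ ?_
    · have a1 : ∀ i, s i x = ∑ S ∈ L, if i ∈ S ∧ W i x ≤ τ then F S x else 0 := by
        intro i
        by_cases h : W i x ≤ τ
        · simp only [hs, h, if_true, and_true]; exact sum_filter _ _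
        · simp [hs, h]
      simp only [a1]
      rw [sum_comm]
      refine le_trans (sum_le_sum fun S hS => ?_) (sum_le_sum_of_subset_of_nonneg
        ((filter_subset (fun S => ¬ S ⊆ J) _).trans (erase_subset ∅ L))
        fun S _ _ => sum_nonneg fun i _ => by split_ifs; exacts [hF0 S x, le_rfl])
      obtain ⟨i, hi, hiJ⟩ := not_subset.1 (mem_filter.1 hS).2
      have hiE : i ∈ E :=
        mem_powerset.1 (mem_filter.1 (mem_of_mem_erase (mem_filter.1 hS).1)).1 hi
      have hW' : W i x ≤ τ := by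
        by_contra h
        exact hiJ (mem_filter.2 ⟨hiE, h⟩)
      refine le_trans (le_of_eq ?_) (single_le_sum
        (f := fun i => if i ∈ S ∧ W i x ≤ τ then F S x else 0)
        (fun i _ => by split_ifs; exacts [hF0 S x, le_rfl]) hiE)
      rw [if_pos ⟨hi, hW'⟩]
    · have hY : ∑ S ∈ (L.erase ∅).filter (fun S => S ⊆ J), F S x ≤ V x :=
        sum_le_sum_of_subset_of_nonneg ((filter_subset _ _).trans (erase_subset ∅ L))
          fun S _ _ => hF0 S x
      have hb0 : 0 ≤ Λ * b x := mul_nonneg hΛ0.le (by simp only [hb]; split_ifs <;> norm_num)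
      have hq : 0 ≤ 1 / Λ * V x ^ 2 := by positivity
      by_cases hVΛ : V x ≤ Λ
      · by_cases hbx : ∃ T ⊆ E, T.card ≤ d ∧ β ≤ |cnd E p f T x - Ex E p f|
        · have : b x = 1 := if_pos hbx
          rw [this]; linarith
        · have hnb : ∀ T ⊆ E, T.card ≤ d → |cnd E p f T x - Ex E p f| ≤ β := fun T hT hTd =>
            le_of_lt (not_le.1 fun h => hbx ⟨T, hT, hTd, h⟩)
          have c1 : (J.card : ℝ) * τ ≤ d * Λ := by
            have e1 : (J.card : ℝ) * τ ≤ ∑ i ∈ E, W i x := by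
              rw [← nsmul_eq_mul]
              refine (card_nsmul_le_sum J (fun i => W i x) τ
                fun i hi => (not_le.1 (mem_filter.1 hi).2).le).trans ?_
              exact sum_le_sum_of_subset_of_nonneg (filter_subset _ _)
                fun i _ _ => sum_nonneg fun S _ => hF0 S x
            have e2 : ∑ i ∈ E, W i x ≤ d * V x := by
              simp only [hW, sum_filter]
              rw [sum_comm, hV, mul_sum]
              refine sum_le_sum fun S hS => ?_
              have hS' := mem_filter.1 hS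
              rw [sum_ite_mem, inter_eq_right.2 (mem_powerset.1 hS'.1), sum_const, nsmul_eq_mul]
              exact mul_le_mul_of_nonneg_right (by exact_mod_cast hS'.2) (hF0 S x)
            exact e1.trans (e2.trans (mul_le_mul_of_nonneg_left hVΛ hd0.le))
          have c2 : J.card ≤ N := by
            rw [← le_div_iff₀ hτ0] at c1
            exact_mod_cast c1.trans hN
          have c3 : ∑ S ∈ (L.erase ∅).filter (fun S => S ⊆ J), F S x ≤ v / 8 := by
            refine (sum_le_card_nsmul _ _ (v / 8 / 2 ^ N) fun S hS => ?_).trans ?_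
            · have e1 := mem_erase.1 (mem_filter.1 hS).1
              have e2 := mem_filter.1 e1.2
              have e3 := nonboost h0 h1 f hβ0.le hnb S (mem_powerset.1 e2.1) e2.2 e1.1
              have e4 : β * (2 ^ d + 1) ^ S.card ≤ √(v / 8 / 2 ^ N) := by
                refine (mul_le_mul_of_nonneg_left (pow_le_pow_right₀
                  (by linarith [show (0 : ℝ) ≤ 2 ^ d by positivity]) e2.2) hβ0.le).trans
                  (le_of_eq ?_)
                rw [hβ, ← hB]; field_simp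
              have e5 := pow_le_pow_left₀ (abs_nonneg _) (e3.trans e4) 2
              rwa [sq_abs, Real.sq_sqrt (by positivity)] at e5
            · have e1 : ((L.erase ∅).filter (fun S => S ⊆ J)).card ≤ 2 ^ N := by
                refine (card_le_card (t := J.powerset)
                  fun S hS => mem_powerset.2 (mem_filter.1 hS).2).trans ?_
                rw [card_powerset]; exact Nat.pow_le_pow_right (by norm_num) c2
              have e2 : (((L.erase ∅).filter (fun S => S ⊆ J)).card : ℝ) ≤ 2 ^ N := by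
                exact_mod_cast e1
              rw [nsmul_eq_mul]
              refine (mul_le_mul_of_nonneg_right e2 (by positivity)).trans (le_of_eq ?_)
              field_simp
          linarith
      · have : V x ≤ 1 / Λ * V x ^ 2 := by
          rw [one_div_mul_eq_div, le_div_iff₀ hΛ0]
          nlinarith [not_le.1 hVΛ]
        linarith
  have fin := hlow.trans (Ex_mono (E := E) h0.le h1.le fun x _ => hpt x)
  rw [Ex_add, Ex_add, Ex_add, Ex_sum, Ex_mul, Ex_mul, Ex_const] at fin
  have e1 : 1 / Λ * Ex E p (fun x => V x ^ 2) ≤ v / 8 := by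
    refine (mul_le_mul_of_nonneg_left hV2 (by positivity)).trans (le_of_eq ?_)
    rw [hΛ]; field_simp
  rw [div_le_iff₀ (by positivity)]
  nlinarith

end Pool.Agent.P.MP_e76ef6_pr
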