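import Mathlib

/-!
Expectations over a `p`-random subset of a finite set.
-/

namespace Pool.Agent.P.MP_e76ef6_pr

open Finset

variable {α : Type*} [DecidableEq α]

/-- Expectation of `f` on a `p`-random subset of `E`. -/
noncomputable def Ex (E : Finset α) (p : ℝ) (f : Finset α → ℝ) : ℝ :=
  ∑ x ∈ E.powerset, p ^ x.card * (1 - p) ^ (E.card - x.card) * f x

omit [DecidableEq α] in
lemma Ex_empty (p : ℝ) (f : Finset α → ℝ) : Ex ∅ p f = f ∅ := by simp [Ex]

lemma Ex_insert {E : Finset α} {a : α} (ha : a ∉ E) (p : ℝ) (f : Finset α → ℝ) :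
    Ex (insert a E) p f = (1 - p) * Ex E p f + p * Ex E p (fun x => f (insert a x)) := by
  unfold Ex
  rw [sum_powerset_insert ha, mul_sum, mul_sum]
  congr 1
  · refine sum_congr rfl fun S hS => ?_
    have hle : S.card ≤ E.card := card_le_card (mem_powerset.1 hS)
    rw [card_insert_of_notMem ha]
    have : E.card + 1 - S.card = (E.card - S.card) + 1 := by omega
    rw [this]; ring
  · refine sum_congr rfl fun S hS => ?_
    have haS : a ∉ S := fun h => ha (mem_powerset.1 hS h)
    rw [card_insert_of_notMem ha, card_insert_of_notMem haS]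
    have : E.card + 1 - (S.card + 1) = E.card - S.card := by omega
    rw [this]; ring

lemma Ex_const (E : Finset α) (p c : ℝ) : Ex E p (fun _ => c) = c := by
  induction E using Finset.induction_on with
  | empty => simp [Ex_empty]
  | insert a E ha ih => rw [Ex_insert ha, ih]; ring

section
omit [DecidableEq α]

lemma Ex_congr {E : Finset α} {p : ℝ} {f g : Finset α → ℝ} (h : ∀ x, x ⊆ E → f x = g x) :
    Ex E p f = Ex E p g :=
  sum_congr rfl fun x hx => by rw [h x (mem_powerset.1 hx)]

lemma Ex_add (E : Finset α) (p : ℝ) (f g : Finset α → ℝ) :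
    Ex E p (fun x => f x + g x) = Ex E p f + Ex E p g := by
  simp only [Ex, mul_add, sum_add_distrib]

lemma Ex_sub (E : Finset α) (p : ℝ) (f g : Finset α → ℝ) :
    Ex E p (fun x => f x - g x) = Ex E p f - Ex E p g := by
  simp only [Ex, mul_sub, sum_sub_distrib]

lemma Ex_mul (E : Finset α) (p c : ℝ) (f : Finset α → ℝ) :
    Ex E p (fun x => c * f x) = c * Ex E p f := by
  simp only [Ex, mul_sum]
  exact sum_congr rfl fun x _ => by ring

lemma Ex_sum {ι : Type*} (E : Finset α) (p : ℝ) (I : Finset ι) (f : ι → Finset α → ℝ) :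
    Ex E p (fun x => ∑ i ∈ I, f i x) = ∑ i ∈ I, Ex E p (f i) := by
  simp only [Ex, mul_sum]
  exact sum_comm

lemma Ex_comm {β : Type*} (E : Finset α) (p : ℝ) (F : Finset β) (q : ℝ)
    (f : Finset α → Finset β → ℝ) :
    Ex E p (fun x => Ex F q (f x)) = Ex F q (fun y => Ex E p (fun x => f x y)) := by
  simp only [Ex, mul_sum]
  rw [sum_comm]
  exact sum_congr rfl fun _ _ => sum_congr rfl fun _ _ => by ring

lemma Ex_mono {E : Finset α} {p : ℝ} (h0 : 0 ≤ p) (h1 : p ≤ 1) {f g : Finset α → ℝ}
    (h : ∀ x, x ⊆ E → f x ≤ g x) : Ex E p f ≤ Ex E p g := by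
  refine sum_le_sum fun x hx => mul_le_mul_of_nonneg_left (h x (mem_powerset.1 hx)) ?_
  exact mul_nonneg (pow_nonneg h0 _) (pow_nonneg (by linarith) _)

lemma Ex_nonneg {E : Finset α} {p : ℝ} (h0 : 0 ≤ p) (h1 : p ≤ 1) {f : Finset α → ℝ}
    (h : ∀ x, x ⊆ E → 0 ≤ f x) : 0 ≤ Ex E p f :=
  sum_nonneg fun x hx => mul_nonneg (mul_nonneg (pow_nonneg h0 _) (pow_nonneg (by linarith) _))
    (h x (mem_powerset.1 hx))

lemma Ex_cs {E : Finset α} {p : ℝ} (h0 : 0 ≤ p) (h1 : p ≤ 1) (f g : Finset α → ℝ) :
    Ex E p (fun x => f x * g x) ^ 2 ≤ Ex E p (fun x => f x ^ 2) * Ex E p (fun x => g x ^ 2) := by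
  have hw : ∀ x : Finset α, 0 ≤ p ^ x.card * (1 - p) ^ (E.card - x.card) := fun x =>
    mul_nonneg (pow_nonneg h0 _) (pow_nonneg (by linarith) _)
  exact sum_sq_le_sum_mul_sum_of_sq_le_mul _ (fun x _ => mul_nonneg (hw x) (sq_nonneg _))
    (fun x _ => mul_nonneg (hw x) (sq_nonneg _)) fun x _ => le_of_eq (by ring)

end

lemma Ex_le_const {E : Finset α} {p c : ℝ} (h0 : 0 ≤ p) (h1 : p ≤ 1) {f : Finset α → ℝ}
    (h : ∀ x, x ⊆ E → f x ≤ c) : Ex E p f ≤ c :=
  (Ex_mono h0 h1 h).trans (Ex_const E p c).le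

lemma Ex_sq_le {E : Finset α} {p : ℝ} (h0 : 0 ≤ p) (h1 : p ≤ 1) (f : Finset α → ℝ) :
    Ex E p f ^ 2 ≤ Ex E p (fun x => f x ^ 2) := by
  have := Ex_cs (E := E) h0 h1 f (fun _ => 1)
  simpa [Ex_const] using this

lemma Ex_pow_four_le {E : Finset α} {p : ℝ} (h0 : 0 ≤ p) (h1 : p ≤ 1) (f : Finset α → ℝ) :
    Ex E p f ^ 4 ≤ Ex E p (fun x => f x ^ 4) := by
  have h2 := Ex_sq_le (E := E) h0 h1 f
  have h3 := Ex_sq_le (E := E) h0 h1 (fun x => f x ^ 2)
  calc Ex E p f ^ 4 = (Ex E p f ^ 2) ^ 2 := by ring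
    _ ≤ Ex E p (fun x => f x ^ 2) ^ 2 := pow_le_pow_left₀ (sq_nonneg _) h2 2
    _ ≤ _ := h3
    _ = _ := Ex_congr fun x _ => by ring

/-- Resampling one coordinate. -/
lemma Ex_two {E : Finset α} {i : α} (hi : i ∈ E) (p : ℝ) (f : Finset α → ℝ) :
    Ex E p f = Ex E p (fun x => p * f (insert i x) + (1 - p) * f (x.erase i)) := by
  obtain ⟨E, hE, rfl⟩ : ∃ E', i ∉ E' ∧ E = insert i E' :=
    ⟨E.erase i, notMem_erase i E, (insert_erase hi).symm⟩
  rw [Ex_insert hE, Ex_insert hE]
  have e1 : Ex E p (fun x => p * f (insert i x) + (1 - p) * f (x.erase i)) =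
      p * Ex E p (fun x => f (insert i x)) + (1 - p) * Ex E p f := by
    rw [Ex_add, Ex_mul, Ex_mul]
    congr 2
    exact Ex_congr fun x hx => by rw [erase_eq_of_notMem fun h => hE (hx h)]
  have e2 : Ex E p (fun x => p * f (insert i (insert i x)) + (1 - p) * f ((insert i x).erase i)) =
      p * Ex E p (fun x => f (insert i x)) + (1 - p) * Ex E p f := by
    rw [Ex_add, Ex_mul, Ex_mul]
    congr 2
    · exact Ex_congr fun x _ => by rw [insert_idem]
    · exact Ex_congr fun x hx => by rw [erase_insert fun h => hE (hx h)]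
  rw [e1, e2]; ring

/-- Product formula. -/
lemma Ex_prod (p : ℝ) (u v : α → ℝ) (E : Finset α) :
    Ex E p (fun x => ∏ i ∈ E, if i ∈ x then u i else v i) =
      ∏ i ∈ E, (p * u i + (1 - p) * v i) := by
  induction E using Finset.induction_on with
  | empty => simp [Ex_empty]
  | insert a E ha ih =>
    rw [Ex_insert ha, prod_insert ha, ← ih]
    have e1 : Ex E p (fun x => ∏ i ∈ insert a E, if i ∈ x then u i else v i) =
        v a * Ex E p (fun x => ∏ i ∈ E, if i ∈ x then u i else v i) := by
      rw [← Ex_mul]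
      refine Ex_congr fun x hx => ?_
      rw [prod_insert ha, if_neg fun h => ha (hx h)]
    have e2 : Ex E p (fun x => ∏ i ∈ insert a E, if i ∈ insert a x then u i else v i) =
        u a * Ex E p (fun x => ∏ i ∈ E, if i ∈ x then u i else v i) := by
      rw [← Ex_mul]
      refine Ex_congr fun x _ => ?_
      rw [prod_insert ha, if_pos (mem_insert_self a x)]
      congr 1
      refine prod_congr rfl fun i hi => ?_
      have hia : i ≠ a := fun h' => ha (h' ▸ hi)
      simp only [mem_insert, hia, false_or]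
    rw [e1, e2]; ring

/-- Two round exposure. -/
lemma Ex_union (p q : ℝ) (E : Finset α) : ∀ f : Finset α → ℝ,
    Ex E (p + q - p * q) f = Ex E p (fun y => Ex E q (fun z => f (y ∪ z))) := by
  induction E using Finset.induction_on with
  | empty => intro f; simp [Ex_empty]
  | insert a E ha ih =>
    intro f
    rw [Ex_insert ha, Ex_insert ha, ih, ih]
    simp only [Ex_insert ha, Ex_add, Ex_mul, union_insert, insert_union, insert_idem]
    ring

/-- Resampling the coordinates in `F`. -/
lemma Ex_split (p : ℝ) (F : Finset α) (E : Finset α) : ∀ f : Finset α → ℝ,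
    Ex E p f = Ex E p (fun z => Ex E p (fun y => f ((z ∩ F) ∪ (y \ F)))) := by
  induction E using Finset.induction_on with
  | empty => intro f; simp [Ex_empty]
  | insert a E ha ih =>
    intro f
    rw [Ex_insert ha, Ex_insert ha, ih f, ih (fun x => f (insert a x))]
    by_cases hF : a ∈ F
    · simp only [Ex_insert ha, Ex_add, Ex_mul, insert_inter_of_mem hF, insert_sdiff_of_mem _ hF,
        insert_union]
      ring
    · simp only [Ex_insert ha, Ex_add, Ex_mul, insert_inter_of_notMem hF,
        insert_sdiff_of_notMem _ hF, union_insert]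
      ring

/-- Independence of the parts inside and outside `F`. -/
lemma Ex_indep (p : ℝ) (F E : Finset α) (g : Finset α → Finset α → ℝ) :
    Ex E p (fun x => g (x ∩ F) (x \ F)) = Ex E p (fun z => Ex E p (fun y => g (z ∩ F) (y \ F))) := by
  rw [Ex_split p F E]
  refine Ex_congr fun z _ => Ex_congr fun y _ => ?_
  congr 1
  · ext a; simp only [mem_inter, mem_union, mem_sdiff]; tauto
  · ext a; simp only [mem_inter, mem_union, mem_sdiff]; tauto

/-- The probability that the trace on `F` is exactly `S`. -/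
lemma Ex_trace (p : ℝ) {E F S : Finset α} (hF : F ⊆ E) (hS : S ⊆ F) :
    Ex E p (fun x => if x ∩ F = S then 1 else 0) = p ^ S.card * (1 - p) ^ (F.card - S.card) := by
  have h := Ex_prod p (fun i => if i ∈ F then (if i ∈ S then 1 else 0) else 1)
    (fun i => if i ∈ F then (if i ∈ S then 0 else 1) else 1) E
  have e2 : ∏ i ∈ E, (p * (if i ∈ F then (if i ∈ S then (1 : ℝ) else 0) else 1) +
      (1 - p) * (if i ∈ F then (if i ∈ S then (0 : ℝ) else 1) else 1)) =
      p ^ S.card * (1 - p) ^ (F.card - S.card) := by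
    rw [prod_congr rfl (g := fun i => if i ∈ F then (if i ∈ S then p else 1 - p) else 1)
      fun i _ => by by_cases h1 : i ∈ F <;> by_cases h2 : i ∈ S <;> simp [h1, h2],
      prod_ite_mem, inter_eq_right.2 hF, prod_ite, prod_const, prod_const,
      filter_mem_eq_inter, inter_eq_right.2 hS, filter_notMem_eq_sdiff, card_sdiff_of_subset hS]
  rw [← e2, ← h]
  refine Ex_congr fun x _ => ?_
  by_cases hx : x ∩ F = S
  · rw [if_pos hx, eq_comm]
    refine prod_eq_one fun i _ => ?_
    by_cases h1 : i ∈ F <;> by_cases h2 : i ∈ x <;> simp [h1, h2, ← hx]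
  · rw [if_neg hx, eq_comm]
    obtain ⟨i, hi⟩ : ∃ i, ¬ (i ∈ x ∩ F ↔ i ∈ S) := by
      by_contra hcon
      push Not at hcon
      exact hx (Finset.ext hcon)
    have hiF : i ∈ F := by
      by_contra hn
      exact hi ⟨fun h => absurd (mem_inter.1 h).2 hn, fun h => absurd (hS h) hn⟩
    refine prod_eq_zero (hF hiF) ?_
    by_cases h1 : i ∈ S <;> by_cases h2 : i ∈ x <;> simp_all

/-- The probability that `F` is contained in the random set. -/
lemma Ex_superset (p : ℝ) {E F : Finset α} (hF : F ⊆ E) :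
    Ex E p (fun x => if F ⊆ x then 1 else 0) = p ^ F.card := by
  have h := Ex_trace p hF (Subset.refl F)
  simp only [Nat.sub_self, pow_zero, mul_one, inter_eq_right] at h
  exact h

/-- The derivative formula of Margulis and Russo. -/
lemma hasDerivAt_Ex (E : Finset α) (p : ℝ) : ∀ f : Finset α → ℝ,
    HasDerivAt (fun q => Ex E q f)
      (∑ i ∈ E, Ex E p (fun x => f (insert i x) - f (x.erase i))) p := by
  induction E using Finset.induction_on with
  | empty => intro f; simpa [Ex_empty] using hasDerivAt_const p (f ∅)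
  | insert a E ha ih =>
    intro f
    have h1 := (((hasDerivAt_id p).const_sub 1).mul (ih f)).add
      ((hasDerivAt_id p).mul (ih fun x => f (insert a x)))
    have e : (fun q => Ex (insert a E) q f) =
        fun q => (1 - q) * Ex E q f + q * Ex E q (fun x => f (insert a x)) :=
      funext fun q => Ex_insert ha q f
    rw [e]
    refine HasDerivAt.congr_deriv h1 ?_
    rw [sum_insert ha, Ex_insert ha]
    have e1 : Ex E p (fun x => f (insert a x) - f (x.erase a)) =
        Ex E p (fun x => f (insert a x)) - Ex E p f := by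
      rw [← Ex_sub]
      exact Ex_congr fun x hx => by rw [erase_eq_of_notMem fun h => ha (hx h)]
    have e2 : Ex E p (fun x => f (insert a (insert a x)) - f ((insert a x).erase a)) =
        Ex E p (fun x => f (insert a x)) - Ex E p f := by
      rw [← Ex_sub]
      exact Ex_congr fun x hx => by rw [insert_idem, erase_insert fun h => ha (hx h)]
    have e3 : ∑ i ∈ E, Ex (insert a E) p (fun x => f (insert i x) - f (x.erase i)) =
        (1 - p) * ∑ i ∈ E, Ex E p (fun x => f (insert i x) - f (x.erase i)) +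
        p * ∑ i ∈ E, Ex E p (fun x => f (insert a (insert i x)) - f (insert a (x.erase i))) := by
      rw [mul_sum, mul_sum, ← sum_add_distrib]
      refine sum_congr rfl fun i hi => ?_
      rw [Ex_insert ha]
      congr 2
      refine Ex_congr fun x _ => ?_
      have hia : a ≠ i := fun h => ha (h ▸ hi)
      rw [insert_comm, erase_insert_of_ne hia]
    rw [e1, e2, e3]
    simp only [id]
    ring

end Pool.Agent.P.MP_e76ef6_pr
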