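import Pool.Agent.P.MP_e76ef6_pr.Cube

/-!
Fourier expansion on the `p`-biased cube, an `L^4` contraction and the Bonami inequality.
-/

namespace Pool.Agent.P.MP_e76ef6_pr

open Finset

variable {α : Type*} [DecidableEq α]

/-- normalised coordinate function -/
noncomputable def ch (p : ℝ) (i : α) (x : Finset α) : ℝ :=
  ((if i ∈ x then 1 else 0) - p) / √(p * (1 - p))

/-- character -/
noncomputable def chi (p : ℝ) (S x : Finset α) : ℝ := ∏ i ∈ S, ch p i x

/-- Fourier coefficient -/
noncomputable def hat (E : Finset α) (p : ℝ) (f : Finset α → ℝ) (S : Finset α) : ℝ :=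
  Ex E p (fun x => f x * chi p S x)

lemma chi_empty (p : ℝ) (x : Finset α) : chi p ∅ x = 1 := by simp [chi]

lemma chi_congr (p : ℝ) {S x y : Finset α} (h : ∀ i ∈ S, i ∈ x ↔ i ∈ y) :
    chi p S x = chi p S y :=
  prod_congr rfl fun i hi => by simp only [ch, h i hi]

lemma chi_erase (p : ℝ) {S : Finset α} {i : α} (hi : i ∉ S) (x : Finset α) :
    chi p S (x.erase i) = chi p S x :=
  chi_congr p fun j hj => by
    rw [mem_erase]; exact ⟨fun h => h.2, fun h => ⟨fun e => hi (e ▸ hj), h⟩⟩

lemma chi_eq_mul (p : ℝ) {S : Finset α} {i : α} (hi : i ∈ S) (x : Finset α) :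
    chi p S x = ch p i x * chi p (S.erase i) x := (mul_prod_erase S _ hi).symm

lemma Ex_ch_mul {E : Finset α} {i : α} (hi : i ∈ E) (p : ℝ) {h : Finset α → ℝ}
    (hh : ∀ x, h (x.erase i) = h x) : Ex E p (fun x => ch p i x * h x) = 0 := by
  rw [Ex_two hi, ← Ex_const E p 0]
  refine Ex_congr fun x _ => ?_
  have h1 : h (insert i x) = h x := by rw [← hh (insert i x), erase_insert_eq_erase, hh]
  simp only [ch, mem_insert_self, if_true, notMem_erase, if_false, h1, hh]
  ring

lemma sig_sq {p : ℝ} (h0 : 0 < p) (h1 : p < 1) : √(p * (1 - p)) ^ 2 = p * (1 - p) :=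
  Real.sq_sqrt (mul_nonneg h0.le (by linarith))

lemma sig_pos {p : ℝ} (h0 : 0 < p) (h1 : p < 1) : 0 < √(p * (1 - p)) :=
  Real.sqrt_pos.2 (mul_pos h0 (by linarith))

lemma chi_orth {E : Finset α} {p : ℝ} (h0 : 0 < p) (h1 : p < 1) {S T : Finset α} (hS : S ⊆ E)
    (hT : T ⊆ E) : Ex E p (fun x => chi p S x * chi p T x) = if S = T then 1 else 0 := by
  have hs := sig_sq h0 h1
  have hs0 := sig_pos h0 h1
  set σ := √(p * (1 - p)) with hσ
  have e1 : ∀ x, chi p S x * chi p T x = ∏ i ∈ E, if i ∈ x then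
      (if i ∈ S then (1 - p) / σ else 1) * (if i ∈ T then (1 - p) / σ else 1) else
      (if i ∈ S then (0 - p) / σ else 1) * (if i ∈ T then (0 - p) / σ else 1) := by
    intro x
    have a1 : ∀ {U : Finset α}, U ⊆ E → chi p U x = ∏ i ∈ E, if i ∈ U then ch p i x else 1 := by
      intro U hU
      rw [prod_ite_mem, inter_eq_right.2 hU]; rfl
    rw [a1 hS, a1 hT, ← prod_mul_distrib]
    refine prod_congr rfl fun i _ => ?_
    by_cases hx : i ∈ x <;> simp only [ch, hx, if_true, if_false, ← hσ]
  simp only [e1]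
  rw [Ex_prod]
  split_ifs with hST
  · subst hST
    refine prod_eq_one fun i _ => ?_
    split_ifs
    · field_simp
      rw [hs]; ring
    · ring
  · obtain ⟨i, hi⟩ : ∃ i, ¬ (i ∈ S ↔ i ∈ T) := by
      by_contra hc
      push Not at hc
      exact hST (Finset.ext hc)
    by_cases a : i ∈ S
    · have b : i ∉ T := fun b => hi ⟨fun _ => b, fun _ => a⟩
      refine prod_eq_zero (hS a) ?_
      simp only [a, b, if_true, if_false]; ring
    · have b : i ∈ T := by
        by_contra b
        exact hi ⟨fun h => absurd h a, fun h => absurd h b⟩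
      refine prod_eq_zero (hT b) ?_
      simp only [a, b, if_true, if_false]; ring

lemma expansion {E : Finset α} {p : ℝ} (h0 : 0 < p) (h1 : p < 1) (f : Finset α → ℝ)
    {x : Finset α} (hx : x ⊆ E) : f x = ∑ S ∈ E.powerset, hat E p f S * chi p S x := by
  have hs := sig_sq h0 h1
  have hs0 := sig_pos h0 h1
  have e1 : ∀ y, ∑ S ∈ E.powerset, chi p S x * chi p S y = ∏ i ∈ E, (1 + ch p i x * ch p i y) := by
    intro y
    rw [prod_one_add]
    refine sum_congr rfl fun S _ => ?_
    rw [prod_mul_distrib]; rfl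
  have e2 : ∀ y, y ⊆ E → f y * ∑ S ∈ E.powerset, chi p S x * chi p S y =
      f x * ∑ S ∈ E.powerset, chi p S x * chi p S y := by
    intro y hy
    by_cases hxy : y = x
    · rw [hxy]
    · have : ∑ S ∈ E.powerset, chi p S x * chi p S y = 0 := by
        rw [e1]
        obtain ⟨i, hi⟩ : ∃ i, ¬ (i ∈ y ↔ i ∈ x) := by
          by_contra hc
          push Not at hc
          exact hxy (Finset.ext hc)
        by_cases a : i ∈ y
        · have b : i ∉ x := fun b => hi ⟨fun _ => b, fun _ => a⟩
          refine prod_eq_zero (hy a) ?_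
          simp only [ch, a, b, if_true, if_false]
          field_simp
          rw [hs]; ring
        · have b : i ∈ x := by
            by_contra b
            exact hi ⟨fun h => absurd h a, fun h => absurd h b⟩
          refine prod_eq_zero (hx b) ?_
          simp only [ch, a, b, if_true, if_false]
          field_simp
          rw [hs]; ring
      rw [this, mul_zero, mul_zero]
  have e3 : Ex E p (fun y => ∑ S ∈ E.powerset, chi p S x * chi p S y) = 1 := by
    rw [Ex_sum]
    rw [sum_eq_single ∅]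
    · simp only [chi_empty, mul_one, Ex_const]
    · intro S hS hne
      rw [Ex_mul]
      have := chi_orth h0 h1 (mem_powerset.1 hS) (empty_subset E)
      simp only [chi_empty, mul_one, hne, if_false] at this
      rw [this, mul_zero]
    · simp
  calc f x = f x * Ex E p (fun y => ∑ S ∈ E.powerset, chi p S x * chi p S y) := by rw [e3, mul_one]
    _ = Ex E p (fun y => f y * ∑ S ∈ E.powerset, chi p S x * chi p S y) := by
        rw [← Ex_mul]; exact (Ex_congr e2).symm
    _ = ∑ S ∈ E.powerset, hat E p f S * chi p S x := by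
        simp only [mul_sum]
        rw [Ex_sum]
        refine sum_congr rfl fun S _ => ?_
        rw [mul_comm, hat, ← Ex_mul]
        exact Ex_congr fun y _ => by ring

lemma parseval {E : Finset α} {p : ℝ} (h0 : 0 < p) (h1 : p < 1) (f g : Finset α → ℝ) :
    Ex E p (fun x => f x * g x) = ∑ S ∈ E.powerset, hat E p f S * hat E p g S := by
  calc Ex E p (fun x => f x * g x)
      = Ex E p (fun x => ∑ S ∈ E.powerset, hat E p f S * (g x * chi p S x)) := by
        refine Ex_congr fun x hx => ?_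
        rw [expansion h0 h1 f hx, sum_mul]
        exact sum_congr rfl fun S _ => by ring
    _ = _ := by
        rw [Ex_sum]
        exact sum_congr rfl fun S _ => by rw [Ex_mul]; rfl

lemma contract_one {E : Finset α} {p : ℝ} (h0 : 0 ≤ p) (h1 : p ≤ 1) {i : α} (hi : i ∈ E) {t : ℝ}
    (ht : |t| ≤ 1 / 3) (c : Finset α → ℝ) :
    Ex E p (fun x => (∑ S ∈ E.powerset, (if i ∈ S then t else 1) * c S * chi p S x) ^ 4) ≤
      Ex E p (fun x => (∑ S ∈ E.powerset, c S * chi p S x) ^ 4) := by
  set A : Finset α → ℝ := fun x => ∑ S ∈ E.powerset.filter (fun S => i ∉ S), c S * chi p S x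
    with hA
  set B : Finset α → ℝ :=
    fun x => ∑ S ∈ E.powerset.filter (fun S => i ∈ S), c S * chi p (S.erase i) x with hB
  have e : ∀ (s : ℝ) x, ∑ S ∈ E.powerset, (if i ∈ S then s else 1) * c S * chi p S x =
      A x + s * (ch p i x * B x) := by
    intro s x
    rw [← sum_filter_add_sum_filter_not E.powerset (fun S => i ∈ S), add_comm]
    congr 1
    · refine sum_congr rfl fun S hS => ?_
      rw [if_neg (mem_filter.1 hS).2, one_mul]
    · simp only [hB, mul_sum]
      refine sum_congr rfl fun S hS => ?_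
      rw [if_pos (mem_filter.1 hS).2, chi_eq_mul p (mem_filter.1 hS).2]; ring
  have e1 : ∀ x, ∑ S ∈ E.powerset, c S * chi p S x = A x + ch p i x * B x := by
    intro x
    have := e 1 x
    simpa using this
  have hAe : ∀ x, A (x.erase i) = A x := fun x =>
    sum_congr rfl fun S hS => by rw [chi_erase p (mem_filter.1 hS).2]
  have hBe : ∀ x, B (x.erase i) = B x := fun x =>
    sum_congr rfl fun S _ => by rw [chi_erase p (notMem_erase i S)]
  have z : Ex E p (fun x => ch p i x * (4 * (1 - t) * A x ^ 3 * B x)) = 0 :=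
    Ex_ch_mul hi p fun x => by rw [hAe, hBe]
  simp only [e, e1]
  have key : ∀ a z : ℝ, (a + t * z) ^ 4 ≤ (a + z) ^ 4 - 4 * (1 - t) * a ^ 3 * z := by
    intro a z
    obtain ⟨t1, t2⟩ := abs_le.1 ht
    have u2 : t ^ 2 ≤ 1 / 9 := by nlinarith
    have u3 : t ^ 3 ≤ 1 / 27 := by nlinarith [sq_nonneg t]
    have u3' : -(1 / 27) ≤ t ^ 3 := by nlinarith [sq_nonneg t]
    have u4 : t ^ 4 ≤ 1 / 81 := by nlinarith [sq_nonneg t]
    have q : 0 ≤ 6 * (1 - t ^ 2) * a ^ 2 + 4 * (1 - t ^ 3) * a * z + (1 - t ^ 4) * z ^ 2 := by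
      have b1 : 16 / 3 * a ^ 2 ≤ 6 * (1 - t ^ 2) * a ^ 2 := by nlinarith [sq_nonneg a]
      have b2 : 80 / 81 * z ^ 2 ≤ (1 - t ^ 4) * z ^ 2 := by nlinarith [sq_nonneg z]
      have b3 : -(112 / 27 * |a * z|) ≤ 4 * (1 - t ^ 3) * a * z := by
        rcases abs_cases (a * z) with h | h <;> rw [h.1] <;> nlinarith [h.2]
      have b4 : 112 / 27 * |a * z| ≤ 16 / 3 * a ^ 2 + 80 / 81 * z ^ 2 := by
        rcases abs_cases (a * z) with h | h <;> rw [h.1] <;>
          nlinarith [sq_nonneg (9 * a - 4 * z), sq_nonneg (9 * a + 4 * z), sq_nonneg a, sq_nonneg z]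
      linarith
    have := mul_nonneg (sq_nonneg z) q
    nlinarith
  calc Ex E p (fun x => (A x + t * (ch p i x * B x)) ^ 4)
      ≤ Ex E p (fun x => (A x + ch p i x * B x) ^ 4 - ch p i x * (4 * (1 - t) * A x ^ 3 * B x)) :=
        Ex_mono h0 h1 fun x _ => (key _ _).trans (le_of_eq (by ring))
    _ = _ := by rw [Ex_sub, z, sub_zero]

lemma contract {E : Finset α} {p : ℝ} (h0 : 0 ≤ p) (h1 : p ≤ 1) {ρ : α → ℝ}
    (hρ : ∀ i, |ρ i| ≤ 1 / 3) (c : Finset α → ℝ) :
    Ex E p (fun x => (∑ S ∈ E.powerset, (∏ i ∈ S, ρ i) * c S * chi p S x) ^ 4) ≤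
      Ex E p (fun x => (∑ S ∈ E.powerset, c S * chi p S x) ^ 4) := by
  have key : ∀ I : Finset α, I ⊆ E →
      Ex E p (fun x => (∑ S ∈ E.powerset, (∏ i ∈ S ∩ I, ρ i) * c S * chi p S x) ^ 4) ≤
        Ex E p (fun x => (∑ S ∈ E.powerset, c S * chi p S x) ^ 4) := by
    intro I
    induction I using Finset.induction_on with
    | empty => intro _; simp
    | insert i I hi ih =>
      intro hI
      have h2 := contract_one h0 h1 (hI (mem_insert_self i I)) (hρ i)
        (fun S => (∏ i ∈ S ∩ I, ρ i) * c S)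
      refine le_trans (le_of_eq ?_) (h2.trans (ih ((subset_insert i I).trans hI)))
      refine Ex_congr fun x _ => ?_
      congr 1
      refine sum_congr rfl fun S _ => ?_
      by_cases hS : i ∈ S
      · rw [inter_insert_of_mem hS, prod_insert (fun h => hi (mem_inter.1 h).2), if_pos hS]; ring
      · rw [inter_insert_of_notMem hS, if_neg hS]; ring
  refine le_trans (le_of_eq ?_) (key E Subset.rfl)
  refine Ex_congr fun x _ => ?_
  congr 1
  refine sum_congr rfl fun S hS => ?_
  rw [inter_eq_left.2 (mem_powerset.1 hS)]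

lemma ch_half (i : α) (y : Finset α) : ch (1 / 2) i y = if i ∈ y then 1 else -1 := by
  have : √((1 / 2 : ℝ) * (1 - 1 / 2)) = 1 / 2 := by
    rw [show (1 / 2 : ℝ) * (1 - 1 / 2) = (1 / 2) ^ 2 by norm_num, Real.sqrt_sq (by norm_num)]
  rw [ch, this]
  split_ifs <;> norm_num

lemma bonami (E : Finset α) : ∀ a : Finset α → ℝ,
    Ex E (1 / 2) (fun y => (∑ S ∈ E.powerset, a S * chi (1 / 2) S y) ^ 4) ≤
      (∑ S ∈ E.powerset, 3 ^ S.card * a S ^ 2) ^ 2 := by
  induction E using Finset.induction_on with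
  | empty =>
    intro a
    simp only [Ex_empty, powerset_empty, sum_singleton, chi_empty, card_empty]
    nlinarith
  | insert i E hi ih =>
    intro a
    set A : Finset α → ℝ := fun y => ∑ S ∈ E.powerset, a S * chi (1 / 2) S y with hA
    set B : Finset α → ℝ := fun y => ∑ S ∈ E.powerset, a (insert i S) * chi (1 / 2) S y with hB
    have hiS : ∀ S ∈ E.powerset, i ∉ S := fun S hS h => hi (mem_powerset.1 hS h)
    have e : ∀ y, ∑ S ∈ (insert i E).powerset, a S * chi (1 / 2) S y =
        A y + ch (1 / 2) i y * B y := by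
      intro y
      rw [sum_powerset_insert hi]
      congr 1
      simp only [hB, mul_sum]
      refine sum_congr rfl fun S hS => ?_
      rw [chi, prod_insert (hiS S hS), chi]; ring
    have hc : ∀ S ∈ E.powerset, ∀ y, chi (1 / 2) S (insert i y) = chi (1 / 2) S y := fun S hS y =>
      chi_congr _ fun j hj => by
        rw [mem_insert]; exact ⟨fun h => h.resolve_left fun e => hiS S hS (e ▸ hj), Or.inr⟩
    have hAi : ∀ y, A (insert i y) = A y := fun y => sum_congr rfl fun S hS => by rw [hc S hS]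
    have hBi : ∀ y, B (insert i y) = B y := fun y => sum_congr rfl fun S hS => by rw [hc S hS]
    have e2 : Ex (insert i E) (1 / 2) (fun y => (A y + ch (1 / 2) i y * B y) ^ 4) =
        Ex E (1 / 2) (fun y => A y ^ 4) + 6 * Ex E (1 / 2) (fun y => A y ^ 2 * B y ^ 2) +
          Ex E (1 / 2) (fun y => B y ^ 4) := by
      rw [Ex_insert hi, ← Ex_mul, ← Ex_mul, ← Ex_add, ← Ex_mul, ← Ex_add, ← Ex_add]
      refine Ex_congr fun y hy => ?_
      have : i ∉ y := fun h => hi (hy h)
      simp only [ch_half, this, mem_insert_self, if_true, if_false, hAi, hBi]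
      ring
    have e3 : ∑ S ∈ (insert i E).powerset, 3 ^ S.card * a S ^ 2 =
        ∑ S ∈ E.powerset, 3 ^ S.card * a S ^ 2 +
          3 * ∑ S ∈ E.powerset, 3 ^ S.card * a (insert i S) ^ 2 := by
      rw [sum_powerset_insert hi, mul_sum]
      congr 1
      refine sum_congr rfl fun S hS => ?_
      rw [card_insert_of_notMem (hiS S hS)]; ring
    simp only [e]
    rw [e2, e3]
    have a1 := ih a
    have a2 := ih (fun S => a (insert i S))
    set u := ∑ S ∈ E.powerset, 3 ^ S.card * a S ^ 2
    set w := ∑ S ∈ E.powerset, 3 ^ S.card * a (insert i S) ^ 2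
    have hu : 0 ≤ u := sum_nonneg fun _ _ => by positivity
    have hw : 0 ≤ w := sum_nonneg fun _ _ => by positivity
    have a3 := Ex_cs (E := E) (p := 1 / 2) (by norm_num) (by norm_num) (fun y => A y ^ 2)
      (fun y => B y ^ 2)
    have a4 : Ex E (1 / 2) (fun y => A y ^ 2 * B y ^ 2) ≤ u * w := by
      refine (pow_le_pow_iff_left₀ (Ex_nonneg (by norm_num) (by norm_num) fun _ _ => by positivity)
        (mul_nonneg hu hw) two_ne_zero).1 (a3.trans ?_)
      simp only [← pow_mul]
      rw [mul_pow]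
      exact mul_le_mul a1 a2
        (Ex_nonneg (by norm_num) (by norm_num) fun _ _ => Even.pow_nonneg (by decide) _)
        (sq_nonneg _)
    have a1' : Ex E (1 / 2) (fun y => A y ^ 4) ≤ u ^ 2 := a1
    have a2' : Ex E (1 / 2) (fun y => B y ^ 4) ≤ w ^ 2 := a2
    nlinarith [sq_nonneg w]

end Pool.Agent.P.MP_e76ef6_pr
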