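import Pool.Agent.P.MP_e76ef6_pr.Plant

/-!
Small subgraphs of a sparse random graph are degenerate.
-/

namespace Pool.Agent.P.MP_e76ef6_pr

open Finset

/-- all edges on `Fin n` -/
def EE (n : ℕ) : Finset (Sym2 (Fin n)) := univ.filter (fun e => ¬ e.IsDiag)

open Classical in
/-- indicator -/
noncomputable def ind (P : Prop) : ℝ := if P then 1 else 0

lemma ind_nonneg (P : Prop) : 0 ≤ ind P := by unfold ind; split_ifs <;> norm_num

lemma ind_le_one (P : Prop) : ind P ≤ 1 := by unfold ind; split_ifs <;> norm_num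

lemma ind_pos {P : Prop} (h : P) : ind P = 1 := if_pos h

lemma ind_neg {P : Prop} (h : ¬ P) : ind P = 0 := if_neg h

lemma ind_mono {P Q : Prop} (h : P → Q) : ind P ≤ ind Q := by
  by_cases hP : P
  · rw [ind_pos hP, ind_pos (h hP)]
  · rw [ind_neg hP]; exact ind_nonneg Q

lemma ind_le {P : Prop} {c : ℝ} (h0 : 0 ≤ c) (h : P → 1 ≤ c) : ind P ≤ c := by
  by_cases hP : P
  · rw [ind_pos hP]; exact h hP
  · rw [ind_neg hP]; exact h0

lemma one_le_count {α ι : Type*} [DecidableEq α] {I : Finset ι} {F : ι → Finset α} {x : Finset α}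
    {i : ι} (hi : i ∈ I) (h : F i ⊆ x) : (1 : ℝ) ≤ ∑ i ∈ I, if F i ⊆ x then 1 else 0 := by
  refine le_trans (le_of_eq (if_pos h).symm)
    (single_le_sum (f := fun i => if F i ⊆ x then (1 : ℝ) else 0) (fun j _ => ?_) hi)
  split_ifs <;> norm_num

lemma count_nonneg {α ι : Type*} [DecidableEq α] (I : Finset ι) (F : ι → Finset α)
    (x : Finset α) : (0 : ℝ) ≤ ∑ i ∈ I, if F i ⊆ x then 1 else 0 :=
  sum_nonneg fun j _ => by split_ifs <;> norm_num

variable {n : ℕ}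

/-- every nonempty subset of `W` has a vertex of degree `< 3` in `S` (`< 2` if it lies in `U`) -/
def Degen (U W : Finset (Fin n)) (S : Finset (Sym2 (Fin n))) : Prop :=
  ∀ H ⊆ W, H.Nonempty →
    ∃ v ∈ H, (H.filter (fun u => u ≠ v ∧ s(u, v) ∈ S)).card < if v ∈ U then 2 else 3

lemma dense_edges {U H : Finset (Fin n)} {x : Finset (Sym2 (Fin n))}
    (h : ∀ v ∈ H, (if v ∈ U then 2 else 3) ≤ (H.filter (fun u => u ≠ v ∧ s(u, v) ∈ x)).card) :
    ∑ v ∈ H, (if v ∈ U then 2 else 3) ≤ 2 * (H.sym2 ∩ x).card := by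
  set D := (H ×ˢ H).filter (fun q => q.1 ≠ q.2 ∧ s(q.1, q.2) ∈ x) with hD
  have h1 : D.card = ∑ v ∈ H, (H.filter (fun u => u ≠ v ∧ s(u, v) ∈ x)).card := by
    rw [hD, card_filter, sum_product_right]
    exact sum_congr rfl fun v _ => (card_filter _ _).symm
  have h2 : D.image (fun q => s(q.1, q.2)) ⊆ H.sym2 ∩ x := by
    intro e he
    obtain ⟨q, hq, rfl⟩ := mem_image.1 he
    have a := mem_filter.1 hq
    exact mem_inter.2 ⟨mk_mem_sym2_iff.2 (mem_product.1 a.1), a.2.2⟩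
  have h3 := card_le_two_mul_image D
  have h4 := card_le_card h2
  have h5 := sum_le_sum h
  omega

lemma nice_bound (E : Finset (Sym2 (Fin n))) (U : Finset (Fin n)) (D : ℕ) {p : ℝ} (h0 : 0 ≤ p)
    (h1 : ((D : ℝ) + 1) ^ 2 * p ≤ 1)
    (hs : U.card * (((D : ℝ) + 1) ^ 2 * p) +
      n * (((D : ℝ) + 1) ^ 2 * p) * √(((D : ℝ) + 1) ^ 2 * p) ≤ 1) :
    Ex E p (fun x => ind (∃ W : Finset (Fin n), W.card ≤ D ∧ ¬ Degen U W x)) ≤
      2 * (U.card * (((D : ℝ) + 1) ^ 2 * p) +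
        n * (((D : ℝ) + 1) ^ 2 * p) * √(((D : ℝ) + 1) ^ 2 * p)) := by
  set t := ((D : ℝ) + 1) ^ 2 * p with ht
  have ht0 : 0 ≤ t := by positivity
  have hp1 : p ≤ 1 := by
    have : 1 ≤ ((D : ℝ) + 1) ^ 2 := one_le_pow₀ (by linarith [Nat.cast_nonneg (α := ℝ) D])
    nlinarith
  set ρ := √t with hρ
  have hρ0 : 0 ≤ ρ := Real.sqrt_nonneg _
  have hρ2 : ρ ^ 2 = t := Real.sq_sqrt ht0
  have hρ1 : ρ ≤ 1 := Real.sqrt_le_one.2 h1
  set a : Fin n → ℕ := fun v => if v ∈ U then 2 else 3 with ha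
  set m : Finset (Fin n) → ℕ := fun H => (∑ v ∈ H, a v + 1) / 2 with hm
  set 𝓗 := (univ.powerset.erase ∅).filter (fun H : Finset (Fin n) => H.card ≤ D) with hH
  have s1 : Ex E p (fun x => ind (∃ W : Finset (Fin n), W.card ≤ D ∧ ¬ Degen U W x)) ≤
      Ex E p (fun x => ∑ H ∈ 𝓗, ∑ T ∈ H.sym2.powersetCard (m H), if id T ⊆ x then 1 else 0) := by
    refine Ex_mono h0 hp1 fun x _ => ind_le (sum_nonneg fun H _ => count_nonneg _ _ _) ?_
    rintro ⟨W, hW, hd⟩
    unfold Degen at hd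
    push Not at hd
    obtain ⟨H, hHW, hne, hv⟩ := hd
    have b1 := dense_edges (U := U) (H := H) (x := x) fun v hv' => hv v hv'
    have b2 : m H ≤ (H.sym2 ∩ x).card := by
      have : ∑ v ∈ H, a v ≤ 2 * (H.sym2 ∩ x).card := b1
      simp only [hm]; omega
    obtain ⟨T, hT, hTc⟩ := exists_subset_card_eq b2
    have b3 : H ∈ 𝓗 := mem_filter.2 ⟨mem_erase.2 ⟨hne.ne_empty, mem_powerset.2 (subset_univ _)⟩,
      (card_le_card hHW).trans hW⟩
    refine le_trans (one_le_count (F := id) (i := T)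
      (mem_powersetCard.2 ⟨hT.trans inter_subset_left, hTc⟩) (hT.trans inter_subset_right))
      (single_le_sum (f := fun H : Finset (Fin n) =>
        ∑ T ∈ H.sym2.powersetCard (m H), if id T ⊆ x then (1 : ℝ) else 0)
        (fun H _ => count_nonneg _ _ _) b3)
  have s2 : ∀ H ∈ 𝓗, Ex E p (fun x => ∑ T ∈ H.sym2.powersetCard (m H),
      if id T ⊆ x then 1 else 0) ≤ ∏ v ∈ H, ρ ^ a v := by
    intro H hH'
    refine (Ex_count_le h0 hp1 _ id (m := m H)
      fun T hT => (mem_powersetCard.1 hT).2.ge).trans ?_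
    have b1 : ((H.sym2.powersetCard (m H)).card : ℝ) ≤ (((D : ℝ) + 1) ^ 2) ^ m H := by
      have : (H.sym2.powersetCard (m H)).card ≤ ((D + 1) ^ 2) ^ m H := by
        rw [card_powersetCard]
        refine (Nat.choose_le_pow _ _).trans (Nat.pow_le_pow_left ?_ _)
        rw [card_sym2]
        refine (Nat.choose_le_pow _ _).trans (Nat.pow_le_pow_left ?_ _)
        have := (mem_filter.1 hH').2
        omega
      exact_mod_cast this
    refine (mul_le_mul_of_nonneg_right b1 (by positivity)).trans ?_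
    rw [← mul_pow, ← ht, ← hρ2, ← pow_mul, prod_pow_eq_pow_sum]
    refine pow_le_pow_of_le_one hρ0 hρ1 ?_
    simp only [hm]; omega
  have s3 : ∑ H ∈ 𝓗, ∏ v ∈ H, ρ ^ a v ≤ Real.exp (∑ v, ρ ^ a v) - 1 := by
    have b1 : ∑ H ∈ 𝓗, ∏ v ∈ H, ρ ^ a v ≤
        ∑ H ∈ (univ : Finset (Fin n)).powerset.erase ∅, ∏ v ∈ H, ρ ^ a v :=
      sum_le_sum_of_subset_of_nonneg (filter_subset _ _) fun H _ _ => by positivity
    have b2 := add_sum_erase (univ : Finset (Fin n)).powerset (fun H => ∏ v ∈ H, ρ ^ a v)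
      (empty_mem_powerset _)
    rw [← prod_one_add, prod_empty] at b2
    have b3 : ∏ v, (1 + ρ ^ a v) ≤ Real.exp (∑ v, ρ ^ a v) := by
      rw [Real.exp_sum]
      exact prod_le_prod (fun v _ => by positivity)
        fun v _ => by linarith [Real.add_one_le_exp (ρ ^ a v)]
    linarith
  have s4 : ∑ v, ρ ^ a v ≤ U.card * t + n * t * ρ := by
    calc ∑ v, ρ ^ a v ≤ ∑ v, ((if v ∈ U then t else 0) + t * ρ) := by
          refine sum_le_sum fun v _ => ?_
          simp only [ha]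
          split_ifs
          · rw [hρ2]; nlinarith
          · rw [← hρ2]; nlinarith
      _ = _ := by
          rw [sum_add_distrib, sum_ite_mem, univ_inter, sum_const, sum_const, card_univ,
            Fintype.card_fin, nsmul_eq_mul, nsmul_eq_mul]; ring
  have s5 : 0 ≤ ∑ v, ρ ^ a v := sum_nonneg fun v _ => by positivity
  have s6 := Real.abs_exp_sub_one_le (x := ∑ v, ρ ^ a v) (by rw [abs_of_nonneg s5]; linarith)
  rw [abs_of_nonneg s5] at s6
  rw [Ex_sum] at s1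
  have s7 := sum_le_sum s2
  linarith [le_abs_self (Real.exp (∑ v, ρ ^ a v) - 1)]

end Pool.Agent.P.MP_e76ef6_pr
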