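import Pool.Agent.P.MP_e76ef6_pr.Bourgain

/-!
Change of measure on a block of coordinates, a second moment bound, union bounds and relabelling.
-/

namespace Pool.Agent.P.MP_e76ef6_pr

open Finset

variable {α : Type*} [DecidableEq α]

lemma Ex_zero (E : Finset α) (g : Finset α → ℝ) : Ex E 0 g = g ∅ := by
  induction E using Finset.induction_on with
  | empty => exact Ex_empty _ _
  | insert a E ha ih => rw [Ex_insert ha, ih]; ring

/-- likelihood ratio on the block `F` -/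
noncomputable def lr (p q : ℝ) (F x : Finset α) : ℝ :=
  ∏ i ∈ F, if i ∈ x then q / p else (1 - q) / (1 - p)

lemma Ex_change {p : ℝ} (h0 : 0 < p) (h1 : p < 1) (q : ℝ) (F E : Finset α) :
    ∀ h : Finset α → ℝ, Ex E p (fun z => lr p q (E ∩ F) z * h (z ∩ F)) =
      Ex E q (fun z => h (z ∩ F)) := by
  induction E using Finset.induction_on with
  | empty => intro h; simp [Ex_empty, lr]
  | insert a E ha ih =>
    intro h
    have hl : ∀ z, lr p q (E ∩ F) (insert a z) = lr p q (E ∩ F) z := fun z =>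
      prod_congr rfl fun i hi => by
        have : i ≠ a := fun e => ha (e ▸ (mem_inter.1 hi).1)
        simp [this]
    rw [Ex_insert ha, Ex_insert ha]
    by_cases haF : a ∈ F
    · have haE : a ∉ E ∩ F := fun e => ha (mem_inter.1 e).1
      have e1 : Ex E p (fun z => lr p q (insert a E ∩ F) z * h (z ∩ F)) =
          (1 - q) / (1 - p) * Ex E q (fun z => h (z ∩ F)) := by
        rw [← ih h, ← Ex_mul]
        refine Ex_congr fun z hz => ?_
        rw [insert_inter_of_mem haF, lr, prod_insert haE, if_neg (fun e => ha (hz e)), lr]; ring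
      have e2 : Ex E p (fun z => lr p q (insert a E ∩ F) (insert a z) * h (insert a z ∩ F)) =
          q / p * Ex E q (fun z => h (insert a z ∩ F)) := by
        simp only [insert_inter_of_mem haF]
        rw [← ih (fun w => h (insert a w)), ← Ex_mul]
        refine Ex_congr fun z _ => ?_
        rw [← hl z, lr, prod_insert haE, if_pos (mem_insert_self a z), lr]; ring
      rw [e1, e2]
      have : 1 - p ≠ 0 := by linarith
      field_simp
    · simp only [insert_inter_of_notMem haF, hl]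
      rw [ih h]; ring

lemma Ex_lr_mul {E F : Finset α} (hF : F ⊆ E) {p : ℝ} (h0 : 0 < p) (h1 : p < 1) (q : ℝ)
    (f : Finset α → ℝ) : Ex E p (fun x => f x * lr p q F x) =
      Ex E q (fun z => Ex E p (fun y => f ((z ∩ F) ∪ (y \ F)))) := by
  rw [Ex_split p F E, ← Ex_change h0 h1 q F E (fun w => Ex E p (fun y => f (w ∪ (y \ F)))),
    inter_eq_right.2 hF]
  refine Ex_congr fun z _ => ?_
  rw [← Ex_mul]
  refine Ex_congr fun y _ => ?_
  rw [mul_comm]
  congr 1
  exact prod_congr rfl fun i hi => by simp [hi]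

lemma Ex_lr_lr {E F G : Finset α} (hF : F ⊆ E) (hG : G ⊆ E) {p : ℝ} (h0 : 0 < p) (h1 : p < 1)
    (q : ℝ) : Ex E p (fun x => lr p q F x * lr p q G x) =
      (1 + (q - p) ^ 2 / (p * (1 - p))) ^ (F ∩ G).card := by
  have hp : 1 - p ≠ 0 := by linarith
  have e1 : ∀ x, lr p q F x * lr p q G x = ∏ i ∈ E, if i ∈ x then
      (if i ∈ F then q / p else 1) * (if i ∈ G then q / p else 1) else
      (if i ∈ F then (1 - q) / (1 - p) else 1) * (if i ∈ G then (1 - q) / (1 - p) else 1) := by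
    intro x
    have a1 : ∀ {U : Finset α}, U ⊆ E → lr p q U x =
        ∏ i ∈ E, if i ∈ U then (if i ∈ x then q / p else (1 - q) / (1 - p)) else 1 := by
      intro U hU
      rw [prod_ite_mem, inter_eq_right.2 hU]; rfl
    rw [a1 hF, a1 hG, ← prod_mul_distrib]
    refine prod_congr rfl fun i _ => ?_
    by_cases hx : i ∈ x <;> simp only [hx, if_true, if_false]
  simp only [e1]
  rw [Ex_prod, ← prod_const, ← inter_eq_right.2 (inter_subset_left.trans hF : F ∩ G ⊆ E),
    ← prod_ite_mem]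
  refine prod_congr rfl fun i _ => ?_
  by_cases a : i ∈ F <;> by_cases b : i ∈ G <;>
    simp only [a, b, mem_inter, if_true, if_false, and_self, and_false, false_and] <;>
    field_simp <;> ring

lemma plant {ι : Type*} [DecidableEq ι] {E : Finset α} {p : ℝ} (h0 : 0 < p) (h1 : p < 1) (q : ℝ)
    (I : Finset ι) (F : ι → Finset α) (hF : ∀ i ∈ I, F i ⊆ E) {a b : ℕ}
    (ha : ∀ i ∈ I, (F i).card ≤ a) (hb : ∀ i ∈ I, ∀ j ∈ I, i ≠ j → (F i ∩ F j).card ≤ b)
    {f : Finset α → ℝ} (f0 : ∀ x, 0 ≤ f x) (f1 : ∀ x, f x ≤ 1) :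
    (∑ i ∈ I, (Ex E q (fun z => Ex E p (fun y => f ((z ∩ F i) ∪ (y \ F i)))) - Ex E p f)) ^ 2 ≤
      I.card * (1 + (q - p) ^ 2 / (p * (1 - p))) ^ a +
        I.card ^ 2 * ((1 + (q - p) ^ 2 / (p * (1 - p))) ^ b - 1) := by
  set ρ := 1 + (q - p) ^ 2 / (p * (1 - p)) with hρ
  have hρ1 : 1 ≤ ρ := le_add_of_nonneg_right
    (div_nonneg (sq_nonneg _) (mul_nonneg h0.le (by linarith)))
  have e1 : ∑ i ∈ I, (Ex E q (fun z => Ex E p (fun y => f ((z ∩ F i) ∪ (y \ F i)))) - Ex E p f) =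
      Ex E p (fun x => f x * ∑ i ∈ I, (lr p q (F i) x - 1)) := by
    simp only [mul_sum]
    rw [Ex_sum]
    refine sum_congr rfl fun i hi => ?_
    rw [← Ex_lr_mul (hF i hi) h0 h1, ← Ex_sub]
    exact Ex_congr fun x _ => by ring
  have e2 : ∀ i ∈ I, Ex E p (lr p q (F i)) = 1 := by
    intro i hi
    have := Ex_lr_lr (hF i hi) (empty_subset E) h0 h1 q
    rw [inter_empty, card_empty, pow_zero] at this
    rw [← this]
    exact Ex_congr fun x _ => by simp [lr]
  have e3 : Ex E p (fun x => (∑ i ∈ I, (lr p q (F i) x - 1)) ^ 2) =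
      ∑ i ∈ I, ∑ j ∈ I, (ρ ^ (F i ∩ F j).card - 1) := by
    simp only [sq, sum_mul_sum]
    rw [Ex_sum]
    refine sum_congr rfl fun i hi => ?_
    rw [Ex_sum]
    refine sum_congr rfl fun j hj => ?_
    have : ∀ x, (lr p q (F i) x - 1) * (lr p q (F j) x - 1) =
        lr p q (F i) x * lr p q (F j) x - lr p q (F i) x - lr p q (F j) x + 1 := fun x => by ring
    simp only [this]
    rw [Ex_add, Ex_sub, Ex_sub, Ex_lr_lr (hF i hi) (hF j hj) h0 h1, e2 i hi, e2 j hj, Ex_const]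
    ring
  have e4 : ∑ i ∈ I, ∑ j ∈ I, (ρ ^ (F i ∩ F j).card - 1) ≤
      I.card * ρ ^ a + I.card ^ 2 * (ρ ^ b - 1) := by
    have hb1 : 0 ≤ ρ ^ b - 1 := sub_nonneg.2 (one_le_pow₀ hρ1)
    have : ∀ i ∈ I, ∑ j ∈ I, (ρ ^ (F i ∩ F j).card - 1) ≤ ρ ^ a + I.card * (ρ ^ b - 1) := by
      intro i hi
      calc ∑ j ∈ I, (ρ ^ (F i ∩ F j).card - 1)
          ≤ ∑ j ∈ I, ((if i = j then ρ ^ a else 0) + (ρ ^ b - 1)) := by
            refine sum_le_sum fun j hj => ?_
            split_ifs with hij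
            · subst hij
              rw [inter_self]
              linarith [pow_le_pow_right₀ hρ1 (ha i hi)]
            · linarith [pow_le_pow_right₀ hρ1 (hb i hi j hj hij)]
        _ = _ := by rw [sum_add_distrib, sum_ite_eq, if_pos hi, sum_const, nsmul_eq_mul]
    refine (sum_le_card_nsmul _ _ _ this).trans (le_of_eq ?_)
    rw [nsmul_eq_mul]; ring
  rw [e1]
  refine (Ex_cs h0.le h1.le _ _).trans ?_
  rw [e3]
  have e5 : Ex E p (fun x => f x ^ 2) ≤ 1 :=
    Ex_le_const h0.le h1.le fun x _ => pow_le_one₀ (f0 x) (f1 x)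
  have e6 : 0 ≤ ∑ i ∈ I, ∑ j ∈ I, (ρ ^ (F i ∩ F j).card - 1) :=
    sum_nonneg fun i _ => sum_nonneg fun j _ => sub_nonneg.2 (one_le_pow₀ hρ1)
  exact (mul_le_of_le_one_left e6 e5).trans e4

lemma Ex_sub_le {E : Finset α} {p : ℝ} (h0 : 0 ≤ p) (h1 : p ≤ 1) (F : Finset α) :
    Ex E p (fun x => if F ⊆ x then 1 else 0) ≤ p ^ F.card := by
  by_cases hF : F ⊆ E
  · exact (Ex_superset p hF).le
  · refine Ex_le_const h0 h1 fun x hx => ?_
    rw [if_neg fun h => hF (h.trans hx)]; positivity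

lemma Ex_count_le {ι : Type*} {E : Finset α} {p : ℝ} (h0 : 0 ≤ p) (h1 : p ≤ 1) (I : Finset ι)
    (F : ι → Finset α) {m : ℕ} (hm : ∀ i ∈ I, m ≤ (F i).card) :
    Ex E p (fun x => ∑ i ∈ I, if F i ⊆ x then 1 else 0) ≤ I.card * p ^ m := by
  rw [Ex_sum, ← nsmul_eq_mul]
  exact sum_le_card_nsmul _ _ _ fun i hi =>
    (Ex_sub_le h0 h1 _).trans (pow_le_pow_of_le_one h0 h1 (hm i hi))

omit [DecidableEq α] in
lemma Ex_map (p : ℝ) {E : Finset α} (π : α ≃ α) (hπ : ∀ a, π a ∈ E ↔ a ∈ E) (g : Finset α → ℝ) :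
    Ex E p (fun x => g (x.map π.toEmbedding)) = Ex E p g := by
  unfold Ex
  refine sum_equiv π.finsetCongr (fun x => ?_) (fun x _ => ?_)
  · simp only [mem_powerset, Equiv.finsetCongr_apply]
    constructor
    · intro h a ha
      obtain ⟨b, hb, rfl⟩ := mem_map.1 ha
      exact (hπ b).2 (h hb)
    · intro h a ha
      exact (hπ a).1 (h (mem_map_of_mem _ ha))
  · simp only [Equiv.finsetCongr_apply, card_map]

lemma monotoneOn_Ex (E : Finset α) {f : Finset α → ℝ} (hm : ∀ x y, x ⊆ y → f x ≤ f y) :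
    MonotoneOn (fun p => Ex E p f) (Set.Icc 0 1) := by
  refine monotoneOn_of_deriv_nonneg (convex_Icc 0 1)
    (fun p _ => (hasDerivAt_Ex E p f).continuousAt.continuousWithinAt)
    (fun p _ => (hasDerivAt_Ex E p f).differentiableAt.differentiableWithinAt) fun p hp => ?_
  rw [interior_Icc] at hp
  rw [(hasDerivAt_Ex E p f).deriv]
  exact sum_nonneg fun i _ => Ex_nonneg hp.1.le hp.2.le fun x _ =>
    sub_nonneg.2 (hm _ _ ((erase_subset i x).trans (subset_insert i x)))

lemma card_le_two_mul_image {V : Type*} [DecidableEq V] (D : Finset (V × V)) :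
    D.card ≤ 2 * (D.image (fun q => s(q.1, q.2))).card := by
  refine card_le_mul_card_image _ _ fun b hb => ?_
  obtain ⟨q, _, rfl⟩ := mem_image.1 hb
  refine (card_le_card (t := {q, q.swap}) fun w hw => ?_).trans card_le_two
  have := Sym2.eq_iff.1 (mem_filter.1 hw).2
  rw [mem_insert, mem_singleton]
  rcases this with h | h
  · exact Or.inl (Prod.ext h.1 h.2)
  · exact Or.inr (Prod.ext h.1 h.2)

end Pool.Agent.P.MP_e76ef6_pr
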