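import Pool.Agent.P.MP_e76ef6_pr.Fourier

/-!
Randomisation estimates for the `p`-biased cube.
-/

namespace Pool.Agent.P.MP_e76ef6_pr

open Finset

variable {α : Type*} [DecidableEq α]

lemma Ex_sq_chi {E : Finset α} {p : ℝ} (h0 : 0 < p) (h1 : p < 1) (a : Finset α → ℝ) :
    Ex E p (fun y => (∑ S ∈ E.powerset, a S * chi p S y) ^ 2) = ∑ S ∈ E.powerset, a S ^ 2 := by
  have e : ∀ y, (∑ S ∈ E.powerset, a S * chi p S y) ^ 2 =
      ∑ S ∈ E.powerset, ∑ T ∈ E.powerset, a S * a T * (chi p S y * chi p T y) := by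
    intro y
    rw [sq, sum_mul_sum]
    exact sum_congr rfl fun S _ => sum_congr rfl fun T _ => by ring
  simp only [e]
  rw [Ex_sum]
  refine sum_congr rfl fun S hS => ?_
  rw [Ex_sum, sum_eq_single S]
  · rw [Ex_mul, chi_orth h0 h1 (mem_powerset.1 hS) (mem_powerset.1 hS), if_pos rfl]; ring
  · intro T hT hne
    rw [Ex_mul, chi_orth h0 h1 (mem_powerset.1 hS) (mem_powerset.1 hT), if_neg (Ne.symm hne),
      mul_zero]
  · intro h; exact absurd hS h

lemma abs_ch_half (i : α) (r : Finset α) : |ch (1 / 2) i r / 3| ≤ 1 / 3 := by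
  rw [ch_half]; split_ifs <;> norm_num [abs_div]

lemma prod_ch_half (S r : Finset α) :
    ∏ i ∈ S, ch (1 / 2) i r / 3 = chi (1 / 2) S r / 3 ^ S.card := by
  rw [prod_div_distrib, prod_const]; rfl

lemma V_sq {E : Finset α} {p : ℝ} (h0 : 0 < p) (h1 : p < 1) {f : Finset α → ℝ}
    (hf : ∀ x, |f x| ≤ 1) (d : ℕ) :
    Ex E p (fun x => (∑ S ∈ E.powerset.filter (fun S => S.card ≤ d),
      (hat E p f S * chi p S x) ^ 2) ^ 2) ≤ 81 ^ d := by
  set X : Finset α → Finset α → ℝ := fun r x =>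
    ∑ S ∈ E.powerset, (∏ i ∈ S, ch (1 / 2) i r / 3) * hat E p f S * chi p S x with hX
  have a1 : ∀ x, (∑ S ∈ E.powerset.filter (fun S => S.card ≤ d),
      (hat E p f S * chi p S x) ^ 2) ^ 2 ≤ 81 ^ d * Ex E (1 / 2) (fun r => X r x ^ 4) := by
    intro x
    have b1 : Ex E (1 / 2) (fun r => X r x ^ 2) =
        ∑ S ∈ E.powerset, (hat E p f S * chi p S x / 3 ^ S.card) ^ 2 := by
      rw [← Ex_sq_chi (p := 1 / 2) (by norm_num) (by norm_num)]
      refine Ex_congr fun r _ => ?_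
      congr 1
      refine sum_congr rfl fun S _ => ?_
      rw [prod_ch_half]; ring
    have b2 : ∑ S ∈ E.powerset.filter (fun S => S.card ≤ d), (hat E p f S * chi p S x) ^ 2 ≤
        9 ^ d * Ex E (1 / 2) (fun r => X r x ^ 2) := by
      rw [b1, mul_sum]
      refine le_trans (sum_le_sum fun S hS => ?_)
        (sum_le_sum_of_subset_of_nonneg (filter_subset (fun S : Finset α => S.card ≤ d) _)
          fun S _ _ => by positivity)
      rw [div_pow, ← pow_mul, mul_comm S.card 2, pow_mul, mul_div_assoc']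
      rw [le_div_iff₀ (by positivity), mul_comm]
      refine mul_le_mul_of_nonneg_right ?_ (sq_nonneg _)
      rw [show (3 : ℝ) ^ 2 = 9 by norm_num]
      exact pow_le_pow_right₀ (by norm_num) (mem_filter.1 hS).2
    have b3 := Ex_sq_le (E := E) (p := 1 / 2) (by norm_num) (by norm_num) (fun r => X r x ^ 2)
    have b4 := pow_le_pow_left₀ (sum_nonneg fun _ _ => sq_nonneg _) b2 2
    rw [mul_pow, ← pow_mul, mul_comm d 2, pow_mul, show (9 : ℝ) ^ 2 = 81 by norm_num] at b4
    refine b4.trans (mul_le_mul_of_nonneg_left (b3.trans (le_of_eq ?_)) (by positivity))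
    exact Ex_congr fun r _ => by ring
  refine (Ex_mono h0.le h1.le fun x _ => a1 x).trans ?_
  rw [Ex_mul, Ex_comm]
  refine mul_le_of_le_one_right (by positivity) ?_
  refine Ex_le_const (by norm_num) (by norm_num) fun r _ => ?_
  refine (contract h0.le h1.le (fun i => abs_ch_half i r) (hat E p f)).trans ?_
  refine Ex_le_const h0.le h1.le fun x hx => ?_
  rw [← expansion h0 h1 f hx]
  have := pow_le_one₀ (n := 4) (abs_nonneg _) (hf x)
  rwa [Even.pow_abs (by decide)] at this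

lemma rand_four {E : Finset α} {p : ℝ} (h0 : 0 < p) (h1 : p < 1) {d : ℕ} {𝒮 : Finset (Finset α)}
    (hE : 𝒮 ⊆ E.powerset) (hd : ∀ S ∈ 𝒮, S.card ≤ d) (G : Finset α → Finset α → ℝ) :
    Ex E p (fun x => (∑ S ∈ 𝒮, hat E p (G S) S * chi p S x) ^ 4) ≤
      729 ^ d * Ex E p (fun x => (∑ S ∈ 𝒮, G S x ^ 2) ^ 2) := by
  set H : Finset α → Finset α → ℝ := fun r x =>
    ∑ S ∈ 𝒮, 3 ^ S.card * chi (1 / 2) S r * G S x with hH
  set T : Finset α → Finset α → ℝ := fun r x =>
    ∑ S ∈ E.powerset, (∏ i ∈ S, ch (1 / 2) i r / 3) * hat E p (H r) S * chi p S x with hT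
  have a0 : ∀ r U, hat E p (H r) U = ∑ S ∈ 𝒮, 3 ^ S.card * chi (1 / 2) S r * hat E p (G S) U := by
    intro r U
    simp only [hat, hH, sum_mul]
    rw [Ex_sum]
    refine sum_congr rfl fun S _ => ?_
    rw [← Ex_mul]
    exact Ex_congr fun x _ => by ring
  have a1 : ∀ x, ∑ S ∈ 𝒮, hat E p (G S) S * chi p S x = Ex E (1 / 2) (fun r => T r x) := by
    intro x
    have e : ∀ r, T r x = ∑ S ∈ 𝒮, ∑ U ∈ E.powerset,
        (3 ^ S.card / 3 ^ U.card * hat E p (G S) U * chi p U x) *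
          (chi (1 / 2) S r * chi (1 / 2) U r) := by
      intro r
      rw [sum_comm]
      refine sum_congr rfl fun U _ => ?_
      rw [prod_ch_half, a0, mul_sum, sum_mul]
      exact sum_congr rfl fun S _ => by ring
    simp only [e]
    rw [Ex_sum]
    refine sum_congr rfl fun S hS => ?_
    have hS' := mem_powerset.1 (hE hS)
    rw [Ex_sum, sum_eq_single S]
    · rw [Ex_mul, chi_orth (by norm_num) (by norm_num) hS' hS', if_pos rfl, div_self (by positivity)]
      ring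
    · intro U hU hne
      rw [Ex_mul, chi_orth (by norm_num) (by norm_num) hS' (mem_powerset.1 hU),
        if_neg (Ne.symm hne), mul_zero]
    · intro h; exact absurd (hE hS) h
  have a2 : ∀ x, Ex E (1 / 2) (fun r => H r x ^ 4) ≤ 729 ^ d * (∑ S ∈ 𝒮, G S x ^ 2) ^ 2 := by
    intro x
    have b1 := bonami E (fun S => if S ∈ 𝒮 then 3 ^ S.card * G S x else 0)
    have b2 : ∀ r, ∑ S ∈ E.powerset, (if S ∈ 𝒮 then 3 ^ S.card * G S x else 0) * chi (1 / 2) S r =
        H r x := by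
      intro r
      simp only [ite_mul, zero_mul]
      rw [sum_ite_mem, inter_eq_right.2 hE]
      exact sum_congr rfl fun S _ => by ring
    simp only [b2] at b1
    refine b1.trans ?_
    have b3 : ∑ S ∈ E.powerset, 3 ^ S.card * (if S ∈ 𝒮 then 3 ^ S.card * G S x else 0) ^ 2 ≤
        27 ^ d * ∑ S ∈ 𝒮, G S x ^ 2 := by
      have : ∀ S : Finset α, 3 ^ S.card * (if S ∈ 𝒮 then 3 ^ S.card * G S x else 0) ^ 2 =
          if S ∈ 𝒮 then 27 ^ S.card * G S x ^ 2 else 0 := by
        intro S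
        split_ifs
        · rw [show (27 : ℝ) = 3 * 3 * 3 by norm_num, mul_pow, mul_pow, mul_pow]; ring
        · ring
      simp only [this]
      rw [sum_ite_mem, inter_eq_right.2 hE, mul_sum]
      exact sum_le_sum fun S hS => mul_le_mul_of_nonneg_right
        (pow_le_pow_right₀ (by norm_num) (hd S hS)) (sq_nonneg _)
    refine (pow_le_pow_left₀ (sum_nonneg fun _ _ => by positivity) b3 2).trans (le_of_eq ?_)
    rw [mul_pow, ← pow_mul, mul_comm d 2, pow_mul]; norm_num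
  calc Ex E p (fun x => (∑ S ∈ 𝒮, hat E p (G S) S * chi p S x) ^ 4)
      ≤ Ex E p (fun x => Ex E (1 / 2) (fun r => T r x ^ 4)) := by
        refine Ex_mono h0.le h1.le fun x _ => ?_
        rw [a1]
        exact Ex_pow_four_le (by norm_num) (by norm_num) _
    _ = Ex E (1 / 2) (fun r => Ex E p (fun x => T r x ^ 4)) := by rw [Ex_comm]
    _ ≤ Ex E (1 / 2) (fun r => Ex E p (fun x => H r x ^ 4)) := by
        refine Ex_mono (by norm_num) (by norm_num) fun r _ => ?_
        refine (contract h0.le h1.le (fun i => abs_ch_half i r) (hat E p (H r))).trans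
          (le_of_eq (Ex_congr fun x hx => ?_))
        rw [← expansion h0 h1 (H r) hx]
    _ = Ex E p (fun x => Ex E (1 / 2) (fun r => H r x ^ 4)) := by rw [Ex_comm]
    _ ≤ _ := by
        rw [← Ex_mul]
        exact Ex_mono h0.le h1.le fun x _ => a2 x

lemma ins_erase (i : α) (x : Finset α) : insert i (x.erase i) = insert i x := by
  ext j; by_cases h : j = i <;> simp [h]

/-- the part of `f` that depends on coordinate `i` -/
noncomputable def Lp (p : ℝ) (i : α) (f : Finset α → ℝ) (x : Finset α) : ℝ :=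
  f x - (p * f (insert i x) + (1 - p) * f (x.erase i))

lemma hat_Lp {E : Finset α} (p : ℝ) {i : α} (hi : i ∈ E) (f : Finset α → ℝ) (S : Finset α) :
    hat E p (Lp p i f) S = if i ∈ S then hat E p f S else 0 := by
  have e : hat E p (Lp p i f) S = hat E p f S -
      Ex E p (fun x => (p * f (insert i x) + (1 - p) * f (x.erase i)) * chi p S x) := by
    rw [hat, hat, ← Ex_sub]
    exact Ex_congr fun x _ => by rw [Lp]; ring
  rw [e]
  split_ifs with hS
  · have := Ex_ch_mul hi p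
      (h := fun x => (p * f (insert i x) + (1 - p) * f (x.erase i)) * chi p (S.erase i) x)
      (fun x => by rw [ins_erase, erase_idem, chi_erase p (notMem_erase i S)])
    rw [sub_eq_self, ← this]
    exact Ex_congr fun x _ => by rw [chi_eq_mul p hS]; ring
  · rw [sub_eq_zero, hat, Ex_two hi]
    refine Ex_congr fun x _ => ?_
    have : chi p S (insert i x) = chi p S x := by
      rw [← chi_erase p hS (insert i x), erase_insert_eq_erase, chi_erase p hS]
    rw [this, chi_erase p hS]; ring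

lemma Ex_abs_Lp {E : Finset α} {p : ℝ} (h0 : 0 ≤ p) (h1 : p ≤ 1) {i : α} (hi : i ∈ E)
    {f : Finset α → ℝ} (hm : ∀ x y, x ⊆ y → f x ≤ f y) :
    Ex E p (fun x => |Lp p i f x|) =
      2 * (p * (1 - p) * Ex E p (fun x => f (insert i x) - f (x.erase i))) := by
  rw [Ex_two hi, ← Ex_mul, ← Ex_mul]
  refine Ex_congr fun x _ => ?_
  have hD : 0 ≤ f (insert i x) - f (x.erase i) :=
    sub_nonneg.2 (hm _ _ ((erase_subset i x).trans (subset_insert i x)))
  have e1 : Lp p i f (insert i x) = (1 - p) * (f (insert i x) - f (x.erase i)) := by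
    rw [Lp, insert_idem, erase_insert_eq_erase]; ring
  have e2 : Lp p i f (x.erase i) = -(p * (f (insert i x) - f (x.erase i))) := by
    rw [Lp, ins_erase, erase_idem]; ring
  rw [e1, e2, abs_neg, abs_of_nonneg (mul_nonneg (by linarith) hD), abs_of_nonneg (mul_nonneg h0 hD)]
  ring

lemma abs_Lp_le {p : ℝ} (h0 : 0 ≤ p) (h1 : p ≤ 1) (i : α) {f : Finset α → ℝ} (f0 : ∀ x, 0 ≤ f x)
    (f1 : ∀ x, f x ≤ 1) (x : Finset α) : |Lp p i f x| ≤ 1 := by
  rw [Lp, abs_le]
  have a := f0 x; have b := f1 x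
  have c := mul_nonneg h0 (f0 (insert i x))
  have d := mul_nonneg (sub_nonneg.2 h1) (f0 (x.erase i))
  have e := mul_le_of_le_one_right h0 (f1 (insert i x))
  have g := mul_le_of_le_one_right (sub_nonneg.2 h1) (f1 (x.erase i))
  constructor <;> linarith

lemma small_part {E : Finset α} {p : ℝ} (h0 : 0 < p) (h1 : p < 1) {i : α} (hi : i ∈ E)
    {f : Finset α → ℝ} (f0 : ∀ x, 0 ≤ f x) (f1 : ∀ x, f x ≤ 1) {d : ℕ} {𝒮 : Finset (Finset α)}
    (hE : 𝒮 ⊆ E.powerset) (hd : ∀ S ∈ 𝒮, S.card ≤ d) (hiS : ∀ S ∈ 𝒮, i ∈ S) {t : ℝ} (ht : 0 < t) :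
    Ex E p (fun x => if ∑ S ∈ 𝒮, (hat E p f S * chi p S x) ^ 2 ≤ 2 * t ^ 3 / 729 ^ d then
      ∑ S ∈ 𝒮, (hat E p f S * chi p S x) ^ 2 else 0) ≤
      3 / 2 * t * Ex E p (fun x => |Lp p i f x|) := by
  set τ : ℝ := 2 * t ^ 3 / 729 ^ d with hτ
  set W : Finset α → ℝ := fun x => ∑ S ∈ 𝒮, (hat E p f S * chi p S x) ^ 2 with hW
  set G : Finset α → Finset α → ℝ := fun S x => if W x ≤ τ then hat E p f S * chi p S x else 0
    with hG
  set Ψ : Finset α → ℝ := fun x => ∑ S ∈ 𝒮, hat E p (G S) S * chi p S x with hΨ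
  set a := Ex E p (fun x => if W x ≤ τ then W x else 0) with ha
  have e1 : a = Ex E p (fun x => Lp p i f x * Ψ x) := by
    have l : a = ∑ S ∈ 𝒮, hat E p f S * hat E p (G S) S := by
      have : ∀ S, hat E p f S * hat E p (G S) S =
          Ex E p (fun x => hat E p f S * (G S x * chi p S x)) := fun S => by rw [Ex_mul]; rfl
      simp only [this]
      rw [← Ex_sum]
      refine Ex_congr fun x _ => ?_
      by_cases h : W x ≤ τ
      · simp only [hG, h, if_true]
        exact sum_congr rfl fun S _ => by ring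
      · simp [hG, h]
    rw [l]
    simp only [hΨ, mul_sum]
    rw [Ex_sum]
    refine sum_congr rfl fun S hS => ?_
    have := hat_Lp p hi f S
    rw [if_pos (hiS S hS)] at this
    rw [← this, mul_comm, hat, hat, ← Ex_mul]
    exact Ex_congr fun x _ => by ring
  have e2 : Ex E p (fun x => Ψ x ^ 4) ≤ 2 * t ^ 3 * a := by
    refine (rand_four h0 h1 hE hd G).trans ?_
    have : Ex E p (fun x => (∑ S ∈ 𝒮, G S x ^ 2) ^ 2) ≤ τ * a := by
      rw [ha, ← Ex_mul]
      refine Ex_mono h0.le h1.le fun x _ => ?_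
      by_cases h : W x ≤ τ
      · simp only [hG, h, if_true]
        have hW0 : 0 ≤ W x := sum_nonneg fun _ _ => sq_nonneg _
        change W x ^ 2 ≤ τ * W x
        nlinarith
      · simp [hG, h]
    refine (mul_le_mul_of_nonneg_left this (by positivity)).trans (le_of_eq ?_)
    rw [hτ]; field_simp
  have e3 : a ≤ Ex E p (fun x => 3 / 4 * t * |Lp p i f x| + 1 / (4 * t ^ 3) * Ψ x ^ 4) := by
    rw [e1]
    refine Ex_mono h0.le h1.le fun x _ => ?_
    have b1 := abs_Lp_le h0.le h1.le i f0 f1 x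
    have b2 : |Ψ x| ≤ 3 / 4 * t + 1 / (4 * t ^ 3) * Ψ x ^ 4 := by
      have c1 : Ψ x ^ 4 = |Ψ x| ^ 4 := (Even.pow_abs (by decide) _).symm
      rw [c1]
      set y := |Ψ x|
      have c2 : 0 ≤ y ^ 4 - 4 * t ^ 3 * y + 3 * t ^ 4 := by
        have : y ^ 4 - 4 * t ^ 3 * y + 3 * t ^ 4 = (y - t) ^ 2 * ((y + t) ^ 2 + 2 * t ^ 2) := by ring
        rw [this]; positivity
      have c3 : 3 / 4 * t + 1 / (4 * t ^ 3) * y ^ 4 - y =
          (y ^ 4 - 4 * t ^ 3 * y + 3 * t ^ 4) / (4 * t ^ 3) := by field_simp; ring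
      have c4 : 0 ≤ (y ^ 4 - 4 * t ^ 3 * y + 3 * t ^ 4) / (4 * t ^ 3) := by positivity
      linarith
    have b3 : Lp p i f x * Ψ x ≤ |Lp p i f x| * |Ψ x| := by rw [← abs_mul]; exact le_abs_self _
    have b4 := mul_le_mul_of_nonneg_left b2 (abs_nonneg (Lp p i f x))
    have b5 : 0 ≤ 1 / (4 * t ^ 3) * Ψ x ^ 4 := by positivity
    nlinarith
  rw [Ex_add, Ex_mul, Ex_mul] at e3
  have e4 := mul_le_mul_of_nonneg_left e2 (show 0 ≤ 1 / (4 * t ^ 3) by positivity)
  have e5 : 1 / (4 * t ^ 3) * (2 * t ^ 3 * a) = a / 2 := by field_simp; ring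
  linarith

end Pool.Agent.P.MP_e76ef6_pr
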