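import Pool.Agent.P.MP_e76ef6_pr.Boost

/-!
The abstract sharp threshold theorem and the passage to sums over graphs.
-/

namespace Pool.Agent.P.MP_e76ef6_pr

open Finset Filter Topology

theorem window (B : ∀ n, Finset (Fin n) → Finset (Sym2 (Fin n)) → Prop) (hB : ∀ n, Sys (B n))
    (U : ∀ n, Finset (Fin n)) (hU : Tendsto (fun n => ((U n).card : ℝ) / n) atTop (𝓝 0))
    (hseed : ∀ (r : ℕ) (ζ C : ℝ), 0 < ζ → 0 < C → ∀ᶠ n : ℕ in atTop, ∀ p : ℝ, 0 < p → p ≤ C / n →
      ∀ R : Finset (Fin n), R.card ≤ r → mu (B n) (U n ∪ R) p < mu (B n) (U n) p + ζ)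
    {η ε C : ℝ} (hη : 0 < η) (hε : 0 < ε) (hC : 0 < C) :
    ∀ᶠ n : ℕ in atTop, ∀ p : ℝ, 0 ≤ p → p + ε / n ≤ C / n → η ≤ mu (B n) (U n) p →
      1 - η < mu (B n) (U n) (p + ε / n) := by
  obtain ⟨r, ζ, θ, hζ, hθ, hb⟩ := boost (C / ε) (η ^ 2) C (by positivity) (by positivity) hC
  filter_upwards [hb, hseed r ζ C hζ hC, hU.eventually (ge_mem_nhds hθ), eventually_gt_atTop 0,
    (tendsto_const_div_atTop_nhds_zero_nat C).eventually (ge_mem_nhds one_pos)]
    with n h1 h2 h3 hn h4 p h0 hp hlo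
  have hn' : (0 : ℝ) < n := by exact_mod_cast hn
  have hεn : 0 < ε / n := by positivity
  by_contra hhi
  push Not at hhi
  obtain ⟨q, hq, hd⟩ := exists_hasDerivAt_eq_slope (fun q => mu (B n) (U n) q)
    (fun q => ∑ i ∈ EE n, Ex (EE n) q
      (fun x => ind (B n (U n) (insert i x)) - ind (B n (U n) (x.erase i))))
    (show p < p + ε / n by linarith)
    (fun q _ => (hasDerivAt_Ex (EE n) q _).continuousAt.continuousWithinAt)
    (fun q _ => hasDerivAt_Ex (EE n) q _)
  have hmo := monotoneOn_Ex (EE n) (f := fun x => ind (B n (U n) x))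
    fun x y h => ind_mono ((hB n).mono _ x y h)
  have q0 : 0 < q := h0.trans_lt hq.1
  have q1 : q ≤ C / n := hq.2.le.trans hp
  have m1 : mu (B n) (U n) p ≤ mu (B n) (U n) q :=
    hmo ⟨h0, by linarith⟩ ⟨q0.le, by linarith⟩ hq.1.le
  have m2 : mu (B n) (U n) q ≤ mu (B n) (U n) (p + ε / n) :=
    hmo ⟨q0.le, by linarith⟩ ⟨by linarith, by linarith⟩ hq.2.le
  obtain ⟨R, hR, hR'⟩ := h1 (B n) (hB n) (U n) (by rwa [div_le_iff₀ hn'] at h3) q q0 q1
    (by nlinarith) (by
      rw [hd, add_sub_cancel_left]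
      have a1 : (mu (B n) (U n) (p + ε / n) - mu (B n) (U n) p) / (ε / n) ≤ 1 / (ε / n) :=
        div_le_div_of_nonneg_right (by linarith) hεn.le
      have a2 : 0 ≤ (mu (B n) (U n) (p + ε / n) - mu (B n) (U n) p) / (ε / n) :=
        div_nonneg (by linarith) hεn.le
      have a3 : q * (1 - q) ≤ C / n := by nlinarith
      refine (mul_le_mul a3 a1 a2 (by positivity)).trans (le_of_eq ?_)
      field_simp)
  linarith [h2 q q0 q1 R hR]

theorem sharp (B : ∀ n, Finset (Fin n) → Finset (Sym2 (Fin n)) → Prop) (hB : ∀ n, Sys (B n))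
    (U : ∀ n, Finset (Fin n)) (hU : Tendsto (fun n => ((U n).card : ℝ) / n) atTop (𝓝 0))
    (hseed : ∀ (r : ℕ) (ζ C : ℝ), 0 < ζ → 0 < C → ∀ᶠ n : ℕ in atTop, ∀ p : ℝ, 0 < p → p ≤ C / n →
      ∀ R : Finset (Fin n), R.card ≤ r → mu (B n) (U n ∪ R) p < mu (B n) (U n) p + ζ)
    (h0 : ∀ n, ¬ B n (U n) ∅) {C : ℝ} (hC : 0 < C)
    (hup : ∀ᶠ n : ℕ in atTop, 1 / 2 ≤ mu (B n) (U n) (C / n)) :
    ∃ c : ℕ → ℝ, ∀ ε : ℝ, 0 < ε →
      Tendsto (fun n : ℕ => mu (B n) (U n) (max 0 (min 1 ((c n - ε) / n)))) atTop (𝓝 0) ∧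
      Tendsto (fun n : ℕ => mu (B n) (U n) (max 0 (min 1 ((c n + ε) / n)))) atTop (𝓝 1) := by
  have hz : ∀ n, mu (B n) (U n) 0 = 0 := fun n => by rw [mu, Ex_zero, ind_neg (h0 n)]
  have hex : ∀ n : ℕ, ∃ p : ℝ, 1 / 2 ≤ mu (B n) (U n) (C / n) →
      p ∈ Set.Icc 0 (C / n) ∧ mu (B n) (U n) p = 1 / 2 := by
    intro n
    by_cases h : 1 / 2 ≤ mu (B n) (U n) (C / n)
    · obtain ⟨p, hp⟩ := intermediate_value_Icc (f := fun q => mu (B n) (U n) q)
        (show 0 ≤ C / n by positivity)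
        (fun q _ => (hasDerivAt_Ex (EE n) q _).continuousAt.continuousWithinAt)
        (show (1 / 2 : ℝ) ∈ Set.Icc _ _ from ⟨by rw [hz]; norm_num, h⟩)
      exact ⟨p, fun _ => hp⟩
    · exact ⟨0, fun h' => absurd h' h⟩
  choose P hP using hex
  have c0 : ∀ x : ℝ, 0 ≤ max 0 (min 1 x) := fun x => le_max_left _ _
  have c1 : ∀ x : ℝ, max 0 (min 1 x) ≤ 1 := fun x => max_le zero_le_one (min_le_left _ _)
  refine ⟨fun n => n * P n, fun ε hε => ⟨?_, ?_⟩⟩
  · refine tendsto_order.2 ⟨fun a ha => Eventually.of_forall fun n =>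
      ha.trans_le (mu_nonneg _ _ (c0 _) (c1 _)), fun a ha => ?_⟩
    filter_upwards [hup, window B hB U hU hseed (lt_min ha one_half_pos) hε hC,
      eventually_gt_atTop 0,
      (tendsto_const_div_atTop_nhds_zero_nat C).eventually (ge_mem_nhds one_pos)]
      with n h1 h2 hn h4
    have hn' : (0 : ℝ) < n := by exact_mod_cast hn
    obtain ⟨⟨p0, p1⟩, p2⟩ := hP n h1
    have e : (n * P n - ε) / n = P n - ε / n := by field_simp
    have hεn : 0 < ε / n := by positivity
    rw [e, min_eq_right (by linarith)]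
    rcases le_total (P n - ε / n) 0 with h | h
    · rw [max_eq_left h, hz]; exact ha
    · rw [max_eq_right h]
      by_contra hc
      have := h2 _ h (by linarith) ((min_le_left _ _).trans (not_lt.1 hc))
      rw [sub_add_cancel, p2] at this
      linarith [min_le_right a (1 / 2)]
  · refine tendsto_order.2 ⟨fun a ha => ?_, fun a ha => Eventually.of_forall fun n =>
      (mu_le_one _ _ (c0 _) (c1 _)).trans_lt ha⟩
    filter_upwards [hup, window B hB U hU hseed (lt_min (sub_pos.2 ha) one_half_pos) hε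
      (add_pos hC hε), eventually_gt_atTop 0,
      (tendsto_const_div_atTop_nhds_zero_nat (C + ε)).eventually (ge_mem_nhds one_pos)]
      with n h1 h2 hn h4
    have hn' : (0 : ℝ) < n := by exact_mod_cast hn
    obtain ⟨⟨p0, p1⟩, p2⟩ := hP n h1
    have e : (n * P n + ε) / n = P n + ε / n := by field_simp
    have hεn : 0 < ε / n := by positivity
    have e2 : P n + ε / n ≤ (C + ε) / n := by rw [add_div]; linarith
    rw [e, min_eq_right (e2.trans h4), max_eq_right (by linarith)]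
    have := h2 _ p0 e2 (by rw [p2]; exact min_le_right _ _)
    linarith [min_le_left (1 - a) (1 / 2)]

lemma card_EE (n : ℕ) : (EE n).card = n.choose 2 := by
  have : EE n = (⊤ : SimpleGraph (Fin n)).edgeFinset := by
    ext e; simp [EE]
  rw [this, SimpleGraph.card_edgeFinset_top_eq_card_choose_two, Fintype.card_fin]

open Classical in
lemma sum_graphs (n : ℕ) (p : ℝ) (P : SimpleGraph (Fin n) → Prop) :
    (∑ G : SimpleGraph (Fin n), if P G then
      p ^ (Nat.card G.edgeSet) * (1 - p) ^ (n.choose 2 - Nat.card G.edgeSet) else 0) =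
    Ex (EE n) p (fun x => ind (P (SimpleGraph.fromEdgeSet (x : Set (Sym2 (Fin n)))))) := by
  unfold Ex
  rw [card_EE]
  refine sum_bij (fun G _ => G.edgeFinset) ?_ ?_ ?_ ?_
  · intro G _
    refine mem_powerset.2 fun e he => mem_filter.2 ⟨mem_univ _, ?_⟩
    exact G.not_isDiag_of_mem_edgeFinset he
  · intro G _ G' _ h
    exact SimpleGraph.edgeFinset_inj.1 h
  · intro S hS
    refine ⟨SimpleGraph.fromEdgeSet (S : Set (Sym2 (Fin n))), mem_univ _, ?_⟩
    ext e
    have hS' := mem_powerset.1 hS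
    simp only [SimpleGraph.mem_edgeFinset, SimpleGraph.edgeSet_fromEdgeSet, Set.mem_sdiff,
      mem_coe]
    exact ⟨fun h => h.1, fun h => ⟨h, (mem_filter.1 (hS' h)).2⟩⟩
  · intro G _
    have e : Nat.card G.edgeSet = G.edgeFinset.card := by
      rw [Nat.card_eq_fintype_card, SimpleGraph.edgeFinset_card]
    rw [e]
    simp only [SimpleGraph.coe_edgeFinset, SimpleGraph.fromEdgeSet_edgeSet, ind]
    split_ifs <;> simp

/-- the first moment bound for colourings with `k` colours -/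
lemma first_moment (k : ℕ) (hk : 1 ≤ k) : ∀ᶠ n : ℕ in atTop,
    Ex (EE n) ((4 * k ^ 2 * (k + 1) : ℝ) / n) (fun x => ind (∃ c : Fin n → Fin k,
      ∀ u v, u ≠ v → s(u, v) ∈ x → c u ≠ c v)) ≤ 1 / 2 := by
  filter_upwards [eventually_ge_atTop (2 * k), (tendsto_const_div_atTop_nhds_zero_nat
    (4 * k ^ 2 * (k + 1) : ℝ)).eventually (ge_mem_nhds one_pos)] with n hn h1
  set p := (4 * k ^ 2 * (k + 1) : ℝ) / n with hp
  have hk' : (1 : ℝ) ≤ k := by exact_mod_cast hk
  have hn' : 2 * (k : ℝ) ≤ n := by exact_mod_cast hn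
  have h0 : 0 ≤ p := by positivity
  set F : (Fin n → Fin k) → Finset (Sym2 (Fin n)) := fun c =>
    ((univ : Finset (Fin n × Fin n)).filter (fun q => q.1 ≠ q.2 ∧ c q.1 = c q.2)).image
      (fun q => s(q.1, q.2)) with hF
  have hFE : ∀ c, F c ⊆ EE n := fun c e he => by
    obtain ⟨q, hq, rfl⟩ := mem_image.1 he
    exact mem_filter.2 ⟨mem_univ _, by simpa using (mem_filter.1 hq).2.1⟩
  have hFc : ∀ c, (n : ℝ) ^ 2 ≤ 4 * k ^ 2 * (F c).card := by
    intro c
    obtain ⟨a, -, ha⟩ := exists_le_card_fiber_of_nsmul_le_card_of_maps_to (M := ℝ)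
      (s := (univ : Finset (Fin n))) (t := (univ : Finset (Fin k))) (f := c) (b := n / k)
      (fun _ _ => mem_univ _) ⟨⟨0, hk⟩, mem_univ _⟩ (by
        simp only [card_univ, Fintype.card_fin, nsmul_eq_mul]
        exact le_of_eq (by field_simp))
    set H := univ.filter (fun x => c x = a) with hH
    have b1 : H.offDiag.card ≤ 2 * (F c).card := by
      refine (card_le_card fun q hq => ?_).trans (card_le_two_mul_image _)
      have := mem_offDiag.1 hq
      exact mem_filter.2 ⟨mem_univ _, this.2.2,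
        (mem_filter.1 this.1).2.trans (mem_filter.1 this.2.1).2.symm⟩
    rw [offDiag_card] at b1
    have b2 : (H.card : ℝ) * H.card ≤ 2 * (F c).card + H.card := by
      have : H.card * H.card ≤ 2 * (F c).card + H.card := by omega
      exact_mod_cast this
    rw [div_le_iff₀ (by linarith)] at ha
    have b3 : (2 : ℝ) ≤ H.card := by
      by_contra h
      push Not at h
      nlinarith
    have b4 : (H.card : ℝ) ^ 2 ≤ 4 * (F c).card := by nlinarith
    have b5 := pow_le_pow_left₀ (by positivity) ha 2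
    nlinarith [mul_le_mul_of_nonneg_left b4 (sq_nonneg (k : ℝ))]
  have s1 : Ex (EE n) p (fun x => ind (∃ c : Fin n → Fin k,
      ∀ u v, u ≠ v → s(u, v) ∈ x → c u ≠ c v)) ≤
      Ex (EE n) p (fun x => ∑ c : Fin n → Fin k, if x ∩ F c = ∅ then 1 else 0) := by
    have nn : ∀ (x : Finset (Sym2 (Fin n))) (c : Fin n → Fin k),
        (0 : ℝ) ≤ if x ∩ F c = ∅ then 1 else 0 := fun x c => by split_ifs <;> norm_num
    refine Ex_mono h0 h1 fun x _ => ind_le (sum_nonneg fun c _ => nn x c) ?_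
    rintro ⟨c, hc⟩
    refine le_trans (le_of_eq (if_pos ?_).symm) (single_le_sum (fun c _ => nn x c) (mem_univ c))
    refine eq_empty_of_forall_notMem fun e he => ?_
    obtain ⟨q, hq, rfl⟩ := mem_image.1 (mem_inter.1 he).2
    exact hc _ _ (mem_filter.1 hq).2.1 (mem_inter.1 he).1 (mem_filter.1 hq).2.2
  refine s1.trans ?_
  rw [Ex_sum]
  have s2 : ∀ c ∈ (univ : Finset (Fin n → Fin k)), Ex (EE n) p
      (fun x => if x ∩ F c = ∅ then 1 else 0) ≤ Real.exp (-((k + 1) * n)) := by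
    intro c _
    rw [Ex_trace p (hFE c) (empty_subset _), card_empty, pow_zero, one_mul, Nat.sub_zero]
    refine (pow_le_pow_left₀ (by linarith) (Real.one_sub_le_exp_neg p) _).trans ?_
    rw [← Real.exp_nat_mul, Real.exp_le_exp, mul_neg, neg_le_neg_iff, hp, ← mul_div_assoc,
      le_div_iff₀ (by linarith)]
    nlinarith [mul_le_mul_of_nonneg_left (hFc c) (show (0 : ℝ) ≤ k + 1 by linarith)]
  refine (sum_le_card_nsmul _ _ _ s2).trans ?_
  rw [card_univ, Fintype.card_fun, Fintype.card_fin, Fintype.card_fin, nsmul_eq_mul]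
  push_cast
  have s3 : (k : ℝ) ^ n ≤ Real.exp (k * n) := by
    rw [mul_comm, Real.exp_nat_mul]
    exact pow_le_pow_left₀ (by linarith) (by linarith [Real.add_one_le_exp (k : ℝ)]) _
  refine (mul_le_mul_of_nonneg_right s3 (Real.exp_pos _).le).trans ?_
  rw [← Real.exp_add, show (k : ℝ) * n + -((k + 1) * n) = -n by ring, Real.exp_neg, ← one_div]
  exact one_div_le_one_div_of_le (by norm_num) (by linarith [Real.add_one_le_exp (n : ℝ)])

end Pool.Agent.P.MP_e76ef6_pr
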